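import Pool.Agent.Hhelper14.ZP2.NotHecke

/-!
# Embeddings of `ℂ` into `ℂ_p` under which given numbers are integral
-/

namespace Pool.Agent.Hhelper14.ZP

open MvPolynomial

/-- roots of monic polynomials with coefficients of norm at most one have norm at most one -/
theorem norm_le_of_root' {K : Type*} [NormedField K] [IsUltrametricDist K] {x : K}
    {P : Polynomial K} (hP : P.Monic) (hPx : P.eval x = 0)
    (hZ : ∀ k, ‖P.coeff k‖ ≤ 1) : ‖x‖ ≤ 1 := by
  by_contra hcon
  rw [not_le] at hcon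
  rw [Polynomial.eval_eq_sum_range, Finset.sum_range_succ] at hPx
  have h1 : P.coeff P.natDegree = 1 := by
    rw [Polynomial.coeff_natDegree, hP.leadingCoeff]
  rw [h1, one_mul] at hPx
  rcases Nat.eq_zero_or_pos P.natDegree with h0 | h0
  · rw [h0] at hPx
    simp at hPx
  obtain ⟨m, hm⟩ : ∃ m, P.natDegree = m + 1 := ⟨P.natDegree - 1, by omega⟩
  have h2 : ‖∑ k ∈ Finset.range P.natDegree, P.coeff k * x ^ k‖ ≤ ‖x‖ ^ m := by
    refine IsUltrametricDist.norm_sum_le_of_forall_le_of_nonneg (by positivity) fun k hk => ?_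
    rw [norm_mul, norm_pow]
    have hk' : k ≤ m := by
      have := Finset.mem_range.mp hk
      omega
    calc _ ≤ 1 * ‖x‖ ^ k := by gcongr; exact hZ k
      _ = ‖x‖ ^ k := one_mul _
      _ ≤ ‖x‖ ^ m := pow_le_pow_right₀ hcon.le hk'
  have h3 : x ^ P.natDegree = - ∑ k ∈ Finset.range P.natDegree, P.coeff k * x ^ k := by
    linear_combination hPx
  have h4 := congrArg norm h3
  rw [norm_neg, norm_pow] at h4
  have h5 : ‖x‖ ^ m < ‖x‖ ^ P.natDegree := by
    rw [hm]
    exact pow_lt_pow_right₀ hcon (Nat.lt_succ_self m)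
  linarith

section

variable {K : Type*} [NormedField K] [IsUltrametricDist K]

theorem exists_scale {p : ℕ} (hp : ‖(p : K)‖ < 1) (y : K) : ∃ k : ℕ, ‖(p : K) ^ k * y‖ < 1 := by
  have h1 : Filter.Tendsto (fun k : ℕ => ‖(p : K)‖ ^ k * ‖y‖) Filter.atTop (nhds (0 * ‖y‖)) :=
    (tendsto_pow_atTop_nhds_zero_of_lt_one (norm_nonneg _) hp).mul_const _
  rw [zero_mul] at h1
  obtain ⟨k, hk⟩ := (h1.eventually (gt_mem_nhds (show (0 : ℝ) < 1 by norm_num))).exists
  exact ⟨k, by rw [norm_mul, norm_pow]; exact hk⟩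

theorem norm_eval_sub_lt (hZ : ∀ m : ℤ, ‖(m : K)‖ ≤ 1) {B : Type*} {ξ : B → K} {m : B → ℤ}
    (h : ∀ b, ‖ξ b - m b‖ < 1) (F : MvPolynomial B ℤ) :
    ‖MvPolynomial.eval₂ (Int.castRingHom K) ξ F‖ ≤ 1 ∧
      ‖MvPolynomial.eval₂ (Int.castRingHom K) ξ F - (MvPolynomial.eval m F : ℤ)‖ < 1 := by
  have hξ : ∀ b, ‖ξ b‖ ≤ 1 := by
    intro b
    have : ξ b = (ξ b - m b) + m b := by ring
    rw [this]
    exact (IsUltrametricDist.norm_add_le_max _ _).trans (max_le (h b).le (hZ _))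
  induction F using MvPolynomial.induction_on with
  | C a =>
    rw [eval₂_C, eval_C]
    refine ⟨by simpa using hZ a, by simp⟩
  | add F G hF hG =>
    rw [eval₂_add, map_add]
    refine ⟨(IsUltrametricDist.norm_add_le_max _ _).trans (max_le hF.1 hG.1), ?_⟩
    push_cast
    rw [add_sub_add_comm]
    exact (IsUltrametricDist.norm_add_le_max _ _).trans_lt (max_lt hF.2 hG.2)
  | mul_X F b hF =>
    rw [eval₂_mul, eval₂_X, map_mul, eval_X]
    refine ⟨?_, ?_⟩
    · rw [norm_mul]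
      exact mul_le_one₀ hF.1 (norm_nonneg _) (hξ b)
    · push_cast
      have e : eval₂ (Int.castRingHom K) ξ F * ξ b - (MvPolynomial.eval m F : ℤ) * (m b : K) =
          (eval₂ (Int.castRingHom K) ξ F - (MvPolynomial.eval m F : ℤ)) * ξ b +
            (MvPolynomial.eval m F : ℤ) * (ξ b - m b) := by ring
      rw [e]
      refine (IsUltrametricDist.norm_add_le_max _ _).trans_lt (max_lt ?_ ?_)
      · rw [norm_mul]
        exact (mul_le_of_le_one_right (norm_nonneg _) (hξ b)).trans_lt hF.2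
      · rw [norm_mul]
        exact (mul_le_of_le_one_left (norm_nonneg _) (hZ _)).trans_lt (h b)

variable [IsAlgClosed K]

theorem sigma_aux (hZ : ∀ m : ℤ, ‖(m : K)‖ ≤ 1) {p : ℕ} (hp0 : p ≠ 0) (hp : ‖(p : K)‖ < 1)
    (σ₁ : ℂ →+* K) {B : Set ℂ} (hB : IsTranscendenceBasis ℤ ((↑) : B → ℂ)) (m : B → ℤ) :
    ∃ σ : ℂ →+* K, ∀ F : MvPolynomial B ℤ,
      ‖σ (MvPolynomial.aeval ((↑) : B → ℂ) F)‖ ≤ 1 ∧
      ‖σ (MvPolynomial.aeval ((↑) : B → ℂ) F) - (MvPolynomial.eval m F : ℤ)‖ < 1 := by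
  classical
  have : CharZero K := (RingHom.charZero_iff σ₁.injective).mp inferInstance
  choose k hk using fun b : B => exists_scale hp (σ₁ b)
  let f : B → Polynomial ℤ := fun b => Polynomial.C ((p : ℤ) ^ k b) * Polynomial.X + Polynomial.C (m b)
  have hpk : ∀ b, ((p : ℤ) ^ k b) ≠ 0 := fun b => pow_ne_zero _ (by exact_mod_cast hp0)
  have hf : ∀ b, Transcendental ℤ (f b) := fun b => by
    have hdeg : (f b).natDegree = 1 := Polynomial.natDegree_linear (hpk b)
    refine Polynomial.transcendental (f b) (by rw [hdeg]; exact one_ne_zero) ?_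
    rw [mem_nonZeroDivisors_iff_ne_zero, Polynomial.leadingCoeff_ne_zero]
    intro h
    rw [h] at hdeg
    simp at hdeg
  have hη : AlgebraicIndependent ℤ (fun b : B => σ₁ b) :=
    hB.1.map' (f := σ₁.toIntAlgHom) σ₁.injective
  have hξ := hη.polynomial_aeval_of_transcendental hf
  set ξ : B → K := fun b => Polynomial.aeval (σ₁ b) (f b) with hξdef
  have hξb : ∀ b, ξ b = (p : K) ^ k b * σ₁ b + m b := by
    intro b
    simp [hξdef, f]
  let _ : Algebra (MvPolynomial B ℤ) ℂ := (MvPolynomial.aeval ((↑) : B → ℂ)).toRingHom.toAlgebra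
  let _ : Algebra (MvPolynomial B ℤ) K := (MvPolynomial.aeval ξ).toRingHom.toAlgebra
  have hinj1 : Function.Injective (algebraMap (MvPolynomial B ℤ) ℂ) := hB.1
  have hinj2 : Function.Injective (algebraMap (MvPolynomial B ℤ) K) := hξ
  have : FaithfulSMul (MvPolynomial B ℤ) ℂ := (faithfulSMul_iff_algebraMap_injective _ _).mpr hinj1
  have : FaithfulSMul (MvPolynomial B ℤ) K := (faithfulSMul_iff_algebraMap_injective _ _).mpr hinj2
  have halg' := hB.isAlgebraic
  have halg : Algebra.IsAlgebraic (MvPolynomial B ℤ) ℂ := by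
    refine Algebra.IsAlgebraic.of_ringHom_of_comp_eq
      (S := Algebra.adjoin ℤ (Set.range ((↑) : B → ℂ))) (B := ℂ)
      (hB.1.aevalEquiv : MvPolynomial B ℤ →+* _) (RingHom.id ℂ) hB.1.aevalEquiv.surjective
      Function.injective_id ?_
    apply MvPolynomial.ringHom_ext
    · intro r
      simp
    · intro b
      simp only [RingHom.comp_apply, RingHom.id_apply]
      have h2 : (algebraMap (MvPolynomial B ℤ) ℂ) (X b) = (b : ℂ) := MvPolynomial.aeval_X _ b
      rw [h2]
      have h3 : (algebraMap (Algebra.adjoin ℤ (Set.range ((↑) : B → ℂ))) ℂ)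
          (hB.1.aevalEquiv (X b)) = MvPolynomial.aeval ((↑) : B → ℂ) (X b) :=
        hB.1.algebraMap_aevalEquiv (X b)
      rw [MvPolynomial.aeval_X] at h3
      exact h3
  let σ : ℂ →ₐ[MvPolynomial B ℤ] K := IsAlgClosed.lift
  refine ⟨σ.toRingHom, fun F => ?_⟩
  have h1 : σ.toRingHom (MvPolynomial.aeval ((↑) : B → ℂ) F) =
      MvPolynomial.eval₂ (Int.castRingHom K) ξ F := σ.commutes F
  rw [h1]
  refine norm_eval_sub_lt hZ (fun b => ?_) F
  rw [hξb, add_sub_cancel_right]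
  exact hk b

end

/-- **Good embeddings**: given finitely many complex numbers, there are arbitrarily large primes
`p` and embeddings of `ℂ` into `ℂ_p` for which these numbers are integral. -/
theorem exists_sigma (T : Finset ℂ) (P₀ : ℕ) : ∃ (p : ℕ) (_ : Fact p.Prime)
    (σ : ℂ →+* PadicComplex p), P₀ ≤ p ∧ ∀ t ∈ T, ‖σ t‖ ≤ 1 := by
  classical
  obtain ⟨B, hB⟩ := exists_isTranscendenceBasis ℤ ℂ
  let _ : Algebra (MvPolynomial B ℤ) ℂ := (MvPolynomial.aeval ((↑) : B → ℂ)).toRingHom.toAlgebra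
  have halg' := hB.isAlgebraic
  have halg : Algebra.IsAlgebraic (MvPolynomial B ℤ) ℂ := by
    refine Algebra.IsAlgebraic.of_ringHom_of_comp_eq
      (S := Algebra.adjoin ℤ (Set.range ((↑) : B → ℂ))) (B := ℂ)
      (hB.1.aevalEquiv : MvPolynomial B ℤ →+* _) (RingHom.id ℂ) hB.1.aevalEquiv.surjective
      Function.injective_id ?_
    apply MvPolynomial.ringHom_ext
    · intro r
      simp
    · intro b
      simp only [RingHom.comp_apply, RingHom.id_apply]
      have h2 : (algebraMap (MvPolynomial B ℤ) ℂ) (X b) = (b : ℂ) := MvPolynomial.aeval_X _ b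
      rw [h2]
      have h3 : (algebraMap (Algebra.adjoin ℤ (Set.range ((↑) : B → ℂ))) ℂ)
          (hB.1.aevalEquiv (X b)) = MvPolynomial.aeval ((↑) : B → ℂ) (X b) :=
        hB.1.algebraMap_aevalEquiv (X b)
      rw [MvPolynomial.aeval_X] at h3
      exact h3
  have hint : ∀ t : ℂ, ∃ y : MvPolynomial B ℤ, y ≠ 0 ∧ IsIntegral (MvPolynomial B ℤ) (y • t) :=
    fun t => (halg.isAlgebraic t).exists_integral_multiple
  choose C hC0 hC using hint
  have hprod : (∏ t ∈ T, C t) ≠ 0 := Finset.prod_ne_zero_iff.mpr fun t _ => hC0 t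
  obtain ⟨m, hm⟩ : ∃ m : B → ℤ, MvPolynomial.eval m (∏ t ∈ T, C t) ≠ 0 := by
    by_contra hcon
    push Not at hcon
    exact hprod (MvPolynomial.funext fun m => by rw [hcon m, map_zero])
  obtain ⟨p, hpP, hp⟩ := Nat.exists_infinite_primes
    (max P₀ ((MvPolynomial.eval m (∏ t ∈ T, C t)).natAbs + 1))
  have hfact : Fact p.Prime := ⟨hp⟩
  obtain ⟨σ₁⟩ := exists_embedding p
  have hpn : ‖(p : PadicComplex p)‖ < 1 := by
    rw [norm_p_eq]
    exact inv_lt_one_of_one_lt₀ (by exact_mod_cast hp.one_lt)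
  obtain ⟨σ, hσ⟩ := sigma_aux (K := PadicComplex p) norm_intCast_le hp.ne_zero hpn σ₁ hB m
  refine ⟨p, hfact, σ, (le_max_left _ _).trans hpP, fun t ht => ?_⟩
  have hndvd : ¬ (p : ℤ) ∣ MvPolynomial.eval m (C t) := by
    intro hdvd
    have h1 : (p : ℤ) ∣ MvPolynomial.eval m (∏ t ∈ T, C t) := by
      rw [map_prod]
      exact hdvd.trans (Finset.dvd_prod_of_mem _ ht)
    have h2 := Int.natAbs_dvd_natAbs.mpr h1
    rw [Int.natAbs_natCast] at h2
    have h3 := Nat.le_of_dvd (Int.natAbs_pos.mpr hm) h2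
    have h4 := (le_max_right _ _).trans hpP
    omega
  have hunit : ‖σ (MvPolynomial.aeval ((↑) : B → ℂ) (C t))‖ = 1 := by
    have h1 : ‖((MvPolynomial.eval m (C t) : ℤ) : PadicComplex p)‖ = 1 := by
      rw [norm_intCast_eq]
      refine le_antisymm (Padic.norm_int_le_one _) ?_
      by_contra hcon
      exact hndvd (Padic.norm_intCast_lt_one_iff.mp (not_le.mp hcon))
    have h2 := (hσ (C t)).2
    have e : σ (MvPolynomial.aeval ((↑) : B → ℂ) (C t)) =
        (σ (MvPolynomial.aeval ((↑) : B → ℂ) (C t)) - (MvPolynomial.eval m (C t) : ℤ)) +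
          (MvPolynomial.eval m (C t) : ℤ) := by ring
    have h3 : ‖σ (MvPolynomial.aeval ((↑) : B → ℂ) (C t)) - (MvPolynomial.eval m (C t) : ℤ)‖ <
        ‖((MvPolynomial.eval m (C t) : ℤ) : PadicComplex p)‖ := by rw [h1]; exact h2
    rw [e, IsUltrametricDist.norm_add_eq_max_of_norm_ne_norm h3.ne, max_eq_right h3.le, h1]
  -- the integral multiple
  obtain ⟨Q, hQ, hQt⟩ := hC t
  have h5 : ‖σ (C t • t)‖ ≤ 1 := by
    let φ : MvPolynomial B ℤ →+* PadicComplex p :=
      σ.comp (algebraMap (MvPolynomial B ℤ) ℂ)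
    refine norm_le_of_root' (P := Q.map φ) (hQ.map φ) ?_ fun k => ?_
    · have h6 := congrArg σ hQt
      rw [map_zero, Polynomial.hom_eval₂] at h6
      rw [Polynomial.eval_map]
      exact h6
    · rw [Polynomial.coeff_map]
      exact (hσ (Q.coeff k)).1
  have h6 : C t • t = MvPolynomial.aeval ((↑) : B → ℂ) (C t) * t := rfl
  rw [h6, map_mul, norm_mul, hunit, one_mul] at h5
  exact h5

end Pool.Agent.Hhelper14.ZP
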