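import Pool.Agent.Hhelper14.ZP2.Point
import Pool.Agent.Hhelper14.ZP2.Sigma

/-!
# The `p`-adic criterion with Tate parameters
-/

namespace Pool.Agent.Hhelper14.ZP

open MvPolynomial

variable {n : ℕ}

/-- **No atypical intersections** if every point has `c` coordinates close to different numbers
`(1 + p i) / p²`. -/
theorem noAtypical_of_close {p : ℕ} [hp : Fact p.Prime] (hp3 : 3 ≤ p) (hpn : n ≤ p)
    (σ : ℂ →+* PadicComplex p) {c : ℕ} (hcn : c ≤ n) {W : Set (Fin n → ℂ)}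
    (hdim : ((n - c : ℕ) : WithBot ℕ∞) ≤ dim W)
    (H : ∀ x ∈ W, ∃ J : Finset (Fin n), c ≤ J.card ∧
      ∀ i ∈ J, ‖p ^ 2 * σ (x i) - (1 + p * ((i : ℕ) : ℤ))‖ ≤ (p : ℝ)⁻¹ ^ 2) : NoAtypical W := by
  classical
  by_contra hcon
  obtain ⟨x, hx, r, hr, t, ht1, ht2⟩ := exists_point hcn hdim hcon
  obtain ⟨J, hJ, hJx⟩ := H x hx
  have hsome : ∀ i : J, ∃ b, t i = some b := by
    intro i
    rw [← Option.ne_none_iff_exists']
    intro hnone
    have h1 := norm_OO_le (K := PadicComplex p) norm_intCast_le σ (ht1 i hnone)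
    have h2 := one_lt_norm (hJx i i.2)
    linarith
  choose f hf using hsome
  have hcard : Fintype.card (Fin r) < Fintype.card J := by
    rw [Fintype.card_fin, Fintype.card_coe]
    omega
  obtain ⟨i, i', hne, hff⟩ := Fintype.exists_ne_map_eq_of_card_lt f hcard
  have hne' : (i : Fin n) ≠ i' := fun h => hne (Subtype.ext h)
  refine not_heckeRel hp3 σ (hJx i i.2) (hJx i' i'.2) ?_ (ht2 i i' (f i) (hf i) (by rw [hff]; exact hf i'))
  intro hdvd
  have h1 : ((i : Fin n) : ℕ) < n := (i : Fin n).2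
  have h2 : ((i' : Fin n) : ℕ) < n := (i' : Fin n).2
  have h3 : (((i : Fin n) : ℕ) : ℤ) - (((i' : Fin n) : ℕ) : ℤ) ≠ 0 := by
    intro h
    apply hne'
    apply Fin.ext
    omega
  have h4 := Int.le_of_dvd (abs_pos.mpr h3) ((dvd_abs _ _).mpr hdvd)
  have h5 : |(((i : Fin n) : ℕ) : ℤ) - (((i' : Fin n) : ℕ) : ℤ)| < n := by
    rw [abs_lt]
    omega
  omega

end Pool.Agent.Hhelper14.ZP
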