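import Pool.Agent.Hhelper14.ZP2.CritDefs
import Pool.Agent.Hhelper14.ZP2.Core

/-!
# The local criterion
-/

namespace Pool.Agent.Hhelper14.ZP

open UpperHalfPlane ModularForm EisensteinSeries PowerSeries MatrixGroups

/-- the series `∑ σ_k(n) X^n` -/
noncomputable def sigSer (R : Type*) [CommRing R] (k : ℕ) : PowerSeries R :=
  PowerSeries.mk fun n => (ArithmeticFunction.sigma k n : R)

theorem map_sigSer {R S : Type*} [CommRing R] [CommRing S] (f : R →+* S) (k : ℕ) :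
    PowerSeries.map f (sigSer R k) = sigSer S k := by
  ext n
  simp [sigSer]

theorem ev_E4 (τ : ℍ) : Ev (Function.Periodic.qParam 1 (τ : ℂ))
    (1 + PowerSeries.C 240 * sigSer ℂ 3) (E₄ τ) := by
  have h1 : Ev (Function.Periodic.qParam 1 (τ : ℂ)) (sigSer ℂ 3)
      (serA (Function.Periodic.qParam 1 (τ : ℂ))) := by
    have h := hasSum_serA (norm_qParam_lt τ)
    simp only [Ev, sigSer, PowerSeries.coeff_mk]
    exact ⟨h.summable.norm, h⟩
  rw [E4_eq]
  exact (Ev.one _).add ((Ev.C _ 240).mul h1)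

theorem ev_E6 (τ : ℍ) : Ev (Function.Periodic.qParam 1 (τ : ℂ))
    (1 - PowerSeries.C 504 * sigSer ℂ 5) (E₆ τ) := by
  have h1 : Ev (Function.Periodic.qParam 1 (τ : ℂ)) (sigSer ℂ 5)
      (serB (Function.Periodic.qParam 1 (τ : ℂ))) := by
    have h := hasSum_serB (norm_qParam_lt τ)
    simp only [Ev, sigSer, PowerSeries.coeff_mk]
    exact ⟨h.summable.norm, h⟩
  rw [E6_eq]
  exact (Ev.one _).sub ((Ev.C _ 504).mul h1)

/-- the formal identity between `j` and the Eisenstein series -/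
theorem formal_j {f : PowerSeries ℂ}
    (hf : ∀ τ : ℍ, Ev (Function.Periodic.qParam 1 (τ : ℂ)) f
      (Function.Periodic.qParam 1 (τ : ℂ) * jInv τ)) :
    f * ((1 + PowerSeries.C 240 * sigSer ℂ 3) ^ 3 - (1 - PowerSeries.C 504 * sigSer ℂ 5) ^ 2) =
      PowerSeries.C 1728 * PowerSeries.X * (1 + PowerSeries.C 240 * sigSer ℂ 3) ^ 3 := by
  rw [← sub_eq_zero]
  apply eq_zero_of_ev one_pos
  intro τ
  have hq : qN 1 τ = Function.Periodic.qParam 1 (τ : ℂ) := by
    rw [← qN_pow one_pos, pow_one]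
  rw [hq]
  set s := Function.Periodic.qParam 1 (τ : ℂ)
  have h1 := ((hf τ).mul (((ev_E4 τ).pow 3).sub ((ev_E6 τ).pow 2))).sub
    (((Ev.C s 1728).mul (Ev.X s)).mul ((ev_E4 τ).pow 3))
  convert h1 using 1
  have h2 : discriminant τ ≠ 0 := discriminant_ne_zero τ
  have h3 := discriminant_eq_E₄_cube_sub_E₆_sq τ
  rw [jInv]
  have h4 : (E₄ τ) ^ 3 - (E₆ τ) ^ 2 = 1728 * discriminant τ := by
    rw [h3]
    ring
  rw [h4]
  field_simp
  ring

section

variable {K : Type*} [NormedField K] [IsUltrametricDist K] [CompleteSpace K]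

theorem ev_sigSer (hZ : ∀ m : ℤ, ‖(m : K)‖ ≤ 1) (k : ℕ) {q : K} (hq : ‖q‖ < 1) :
    Ev q (sigSer K k) (∑' m : ℕ, (ArithmeticFunction.sigma k m : K) * q ^ m) := by
  have h1 := ev_val (K := K) (f := sigSer K k) (fun n => by
    rw [sigSer, PowerSeries.coeff_mk]
    exact_mod_cast hZ (ArithmeticFunction.sigma k n : ℤ)) hq
  simp only [val, sigSer, PowerSeries.coeff_mk] at h1
  exact h1

theorem isTateParam_of_isTate (hZ : ∀ m : ℤ, ‖(m : K)‖ ≤ 1) (τ : ℂ →+* K) {f : PowerSeries ℂ}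
    (hfO : ∀ n, coeff n f ∈ OO) (hf0 : coeff 0 f = 1)
    (hf : ∀ τ : ℍ, Ev (Function.Periodic.qParam 1 (τ : ℂ)) f
      (Function.Periodic.qParam 1 (τ : ℂ) * jInv τ)) {x q : K}
    (h : IsTate (PowerSeries.map τ f) x q) : IsTateParam x q := by
  obtain ⟨hq, hqx⟩ := h
  have hfn : ∀ n, ‖coeff n (PowerSeries.map τ f)‖ ≤ 1 := fun n => by
    rw [PowerSeries.coeff_map]
    exact norm_OO_le hZ τ (hfO n)
  have hf0' : coeff 0 (PowerSeries.map τ f) = 1 := by
    rw [PowerSeries.coeff_map, hf0, map_one]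
  have hq0 : q ≠ 0 := by
    rintro rfl
    rw [zero_mul, val_zero hfn, hf0'] at hqx
    exact zero_ne_one hqx
  refine ⟨norm_pos_iff.mpr hq0, hq, ?_⟩
  have hid := congrArg (PowerSeries.map τ) (formal_j hf)
  simp only [map_mul, map_sub, map_pow, map_add, map_one, PowerSeries.map_X,
    map_sigSer, map_ofNat] at hid
  have hE4 : Ev q (1 + PowerSeries.C 240 * sigSer K 3) (serE4 q) :=
    (Ev.one q).add ((Ev.C q 240).mul (ev_sigSer hZ 3 hq))
  have hE6 : Ev q (1 - PowerSeries.C 504 * sigSer K 5) (serE6 q) :=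
    (Ev.one q).sub ((Ev.C q 504).mul (ev_sigSer hZ 5 hq))
  have hL := (ev_val hfn hq).mul ((hE4.pow 3).sub (hE6.pow 2))
  have hR := ((Ev.C q (1728 : K)).mul (Ev.X q)).mul (hE4.pow 3)
  rw [← hqx] at hL
  have h1 : PowerSeries.map τ f * ((1 + PowerSeries.C 240 * sigSer K 3) ^ 3 -
      (1 - PowerSeries.C 504 * sigSer K 5) ^ 2) =
      PowerSeries.C 1728 * PowerSeries.X * (1 + PowerSeries.C 240 * sigSer K 3) ^ 3 := by
    have c1 : (PowerSeries.C (240 : K) : PowerSeries K) = 240 := map_ofNat _ 240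
    have c2 : (PowerSeries.C (504 : K) : PowerSeries K) = 504 := map_ofNat _ 504
    have c3 : (PowerSeries.C (1728 : K) : PowerSeries K) = 1728 := map_ofNat _ 1728
    rw [c1, c2, c3]
    exact hid
  rw [h1] at hL
  have h2 := hL.unique hR
  apply mul_left_cancel₀ hq0
  linear_combination h2

end

variable {p : ℕ} [hp : Fact p.Prime]

/-- the valuation ring attached to an embedding -/
def sigmaVal (σ : ℂ →+* PadicComplex p) : ValuationSubring ℂ where
  carrier := {z | ‖σ z‖ ≤ 1}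
  mul_mem' := fun {a b} ha hb => by
    simp only [Set.mem_ofPred_eq, map_mul, norm_mul] at *
    exact mul_le_one₀ ha (norm_nonneg _) hb
  one_mem' := by simp
  add_mem' := fun {a b} ha hb => by
    simp only [Set.mem_ofPred_eq, map_add] at *
    exact (IsUltrametricDist.norm_add_le_max _ _).trans (max_le ha hb)
  zero_mem' := by simp
  neg_mem' := fun {a} ha => by
    simpa using ha
  mem_or_inv_mem' := fun a => by
    simp only [Set.mem_ofPred_eq, map_inv₀, norm_inv]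
    rcases le_or_gt ‖σ a‖ 1 with h | h
    · exact Or.inl h
    · exact Or.inr (inv_le_one_of_one_le₀ h.le)

theorem mem_sigmaVal (σ : ℂ →+* PadicComplex p) (z : ℂ) : z ∈ sigmaVal σ ↔ ‖σ z‖ ≤ 1 := Iff.rfl

/-- Hecke related numbers are locally isogenous -/
theorem locIsog_of_heckeRel (σ : ℂ →+* PadicComplex p) {x y : ℂ} (h : HeckeRel x y) :
    LocIsog σ x y := by
  obtain ⟨τ, g, hg, rfl, rfl⟩ := h
  by_cases hx : ‖σ (jInv τ)‖ ≤ 1
  · refine Or.inl ⟨hx, ?_⟩
    rw [← mem_sigmaVal, gact_mem_iff _ hg]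
    exact hx
  · obtain ⟨N, hN, A, hA⟩ := exists_integral hg
    obtain ⟨f, hfO, hf0, hf⟩ := exists_Jf
    obtain ⟨q, u, a, d, ha, hd, hq, hu, hrel⟩ :=
      tate_of_hecke hfO hf0 hf norm_intCast_le σ hN A τ (not_le.mp hx)
    have hjA : jA hN A τ = jInv (gact g τ) := by rw [jA, hA]
    rw [hjA] at hu
    exact Or.inr ⟨q, u, a, d, isTateParam_of_isTate norm_intCast_le σ hfO hf0 hf hq,
      isTateParam_of_isTate norm_intCast_le σ hfO hf0 hf hu, ha, hd, hrel.symm⟩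

/-- **Local criterion.** -/
theorem local_criterion {n c : ℕ} (hcn : c ≤ n) {V : Set (Fin n → ℂ)}
    (hdim : ((n - c : ℕ) : WithBot ℕ∞) ≤ dim V)
    (H : ∀ x ∈ V, ∀ r < c, ∀ t : Fin n → Option (Fin r), ∃ (p : ℕ) (_ : Fact p.Prime)
      (σ : ℂ →+* PadicComplex p), (∃ i, t i = none ∧ 1 < ‖σ (x i)‖) ∨
        ∃ i i' b, t i = some b ∧ t i' = some b ∧ ¬ LocIsog σ (x i) (x i')) : NoAtypical V := by
  by_contra hcon
  obtain ⟨x, hx, r, hr, t, ht1, ht2⟩ := exists_point hcn hdim hcon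
  obtain ⟨p, hp, σ, ⟨i, hi, hxi⟩ | ⟨i, i', b, hi, hi', hii'⟩⟩ := H x hx r hr t
  · have := norm_OO_le (K := PadicComplex p) norm_intCast_le σ (ht1 i hi)
    linarith
  · exact hii' (locIsog_of_heckeRel σ (ht2 i i' b hi hi'))

end Pool.Agent.Hhelper14.ZP
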