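import Pool.Agent.Hhelper14.ZP.Defs

/-!
# Tate parameters and local isogeny
-/

namespace Pool.Agent.Hhelper14.ZP

/-- The `q`-expansion of `E₄`: `1 + 240 ∑ σ₃(m) q^m`. -/
noncomputable def serE4 {K : Type*} [NormedField K] (q : K) : K :=
  1 + 240 * ∑' m : ℕ, (ArithmeticFunction.sigma 3 m : K) * q ^ m

/-- The `q`-expansion of `E₆`: `1 - 504 ∑ σ₅(m) q^m`. -/
noncomputable def serE6 {K : Type*} [NormedField K] (q : K) : K :=
  1 - 504 * ∑' m : ℕ, (ArithmeticFunction.sigma 5 m : K) * q ^ m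

/-- `q` is the Tate parameter of the elliptic curves with `j`-invariant `x`:
`0 < |q| < 1` and `x = 1728 E₄(q)³ / (E₄(q)³ - E₆(q)²)`. -/
def IsTateParam {K : Type*} [NormedField K] (x q : K) : Prop :=
  0 < ‖q‖ ∧ ‖q‖ < 1 ∧ x * (serE4 q ^ 3 - serE6 q ^ 2) = 1728 * serE4 q ^ 3

/-- `x` and `y` are isogenous `j`-invariants as far as the embedding `σ : ℂ → ℂ_p` can tell:
both are integral, or both have Tate parameters, and these are multiplicatively dependent. -/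
def LocIsog {p : ℕ} [Fact p.Prime] (σ : ℂ →+* PadicComplex p) (x y : ℂ) : Prop :=
  (‖σ x‖ ≤ 1 ∧ ‖σ y‖ ≤ 1) ∨ ∃ (q q' : PadicComplex p) (a b : ℕ), IsTateParam (σ x) q ∧
    IsTateParam (σ y) q' ∧ 0 < a ∧ 0 < b ∧ q ^ a = q' ^ b

end Pool.Agent.Hhelper14.ZP
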