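import Mathlib

/-!
# Embeddings of `ℂ` into `ℂ_p`
-/

namespace Pool.Agent.Hhelper14.ZP

open Cardinal

theorem mk_padic_le (p : ℕ) [Fact p.Prime] : #ℚ_[p] ≤ 𝔠 := by
  have h1 : #ℚ_[p] ≤ #(CauSeq ℚ (padicNorm p)) := Cardinal.mk_quotient_le
  have h2 : #(CauSeq ℚ (padicNorm p)) ≤ #(ℕ → ℚ) :=
    Cardinal.mk_le_of_injective (f := fun s : CauSeq ℚ (padicNorm p) => (s.1 : ℕ → ℚ))
      Subtype.val_injective
  refine h1.trans (h2.trans ?_)
  simp

theorem mk_padicAlgCl (p : ℕ) [Fact p.Prime] : #(PadicAlgCl p) = 𝔠 := by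
  apply le_antisymm
  · have h1 := Algebra.IsAlgebraic.cardinalMk_le_max ℚ_[p] (PadicAlgCl p)
    refine h1.trans (max_le (mk_padic_le p) aleph0_le_continuum)
  · have h1 : 𝔠 ≤ #ℚ_[p] := continuum_le_cardinal_of_nontriviallyNormedField ℚ_[p]
    refine h1.trans (Cardinal.mk_le_of_injective (f := algebraMap ℚ_[p] (PadicAlgCl p))
      (algebraMap ℚ_[p] (PadicAlgCl p)).injective)

/-- there is an embedding of `ℂ` into `ℂ_p` -/
theorem exists_embedding (p : ℕ) [Fact p.Prime] : Nonempty (ℂ →+* PadicComplex p) := by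
  have h1 : Nonempty (ℂ ≃ PadicAlgCl p) := by
    rw [← Cardinal.eq, mk_padicAlgCl, Cardinal.mk_complex]
  obtain ⟨e⟩ := IsAlgClosed.ringEquiv_of_equiv_of_charZero
    (K := ℂ) (L := PadicAlgCl p) (by rw [Cardinal.mk_complex]; exact aleph0_lt_continuum) h1
  exact ⟨(algebraMap (PadicAlgCl p) (PadicComplex p)).comp e.toRingHom⟩

end Pool.Agent.Hhelper14.ZP
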