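import Pool.Agent.Hhelper14.ZP2.Tate

/-!
# `p`-adic shape of the matrices
-/

namespace Pool.Agent.Hhelper14.ZP

variable {p : ℕ} [hp : Fact p.Prime]

theorem norm_int_unit {m : ℤ} (h : ∃ k : ℤ, m = 1 + p * k ∨ m = -1 + p * k) :
    ‖(m : PadicComplex p)‖ = 1 := by
  rw [norm_intCast_eq, Padic.norm_intCast_eq_one_iff]
  obtain ⟨k, rfl | rfl⟩ := h
  · exact ⟨1, -k, by ring⟩
  · exact ⟨-1, k, by ring⟩

theorem entries (i s : ℤ) {g : Matrix (Fin 2) (Fin 2) ℤ}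
    (h00 : g 0 0 ≡ 1 + p * i [ZMOD (p : ℤ) ^ 5])
    (h01 : g 0 1 ≡ p ^ 2 - (1 + p * i) * s [ZMOD (p : ℤ) ^ 5])
    (h10 : g 1 0 ≡ p ^ 2 [ZMOD (p : ℤ) ^ 5])
    (h11 : g 1 1 ≡ -(p ^ 2 * s) [ZMOD (p : ℤ) ^ 5]) :
    g 1 0 ≠ 0 ∧ g 0 0 * g 1 1 - g 0 1 * g 1 0 ≠ 0 ∧
    ‖((p : PadicComplex p) ^ 2 * ((g 0 0 : PadicComplex p) / (g 1 0 : PadicComplex p)) -
      (1 + p * i))‖ ≤ (p : ℝ)⁻¹ ^ 2 ∧
    ‖-(g 1 1 : PadicComplex p) / (g 1 0 : PadicComplex p) - s‖ < 1 ∧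
    ‖((g 0 0 : PadicComplex p) * g 1 1 - g 0 1 * g 1 0) / (g 1 0 : PadicComplex p) ^ 2‖ = 1 := by
  obtain ⟨a', ha⟩ := Int.modEq_iff_dvd.mp h00.symm
  obtain ⟨b', hb⟩ := Int.modEq_iff_dvd.mp h01.symm
  obtain ⟨k, hc⟩ := Int.modEq_iff_dvd.mp h10.symm
  obtain ⟨l, hd⟩ := Int.modEq_iff_dvd.mp h11.symm
  have ha' : g 0 0 = 1 + p * i + p ^ 5 * a' := by linarith
  have hb' : g 0 1 = p ^ 2 - (1 + p * i) * s + p ^ 5 * b' := by linarith
  have hc' : g 1 0 = p ^ 2 * (1 + p * (p ^ 2 * k)) := by linear_combination hc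
  have hd' : g 1 1 = p ^ 2 * (-s + p ^ 3 * l) := by linear_combination hd
  have hp0 : (0 : ℝ) < p := by exact_mod_cast hp.out.pos
  have hpi : (0 : ℝ) < (p : ℝ)⁻¹ := by positivity
  have hpi1 : (p : ℝ)⁻¹ < 1 := inv_lt_one_of_one_lt₀ (by exact_mod_cast hp.out.one_lt)
  have hpZ : (p : ℤ) ≠ 0 := by exact_mod_cast hp.out.ne_zero
  have hpK : (p : PadicComplex p) ≠ 0 := by exact_mod_cast hp.out.ne_zero
  set E : ℤ := (1 + p * i) * l - p ^ 2 * a' * s + p ^ 5 * a' * l - p ^ 2 * b' -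
    k * (p ^ 2 - (1 + p * i) * s + p ^ 5 * b') with hE
  have hdet : g 0 0 * g 1 1 - g 0 1 * g 1 0 = p ^ 4 * (-1 + p * E) := by
    rw [ha', hb', hc', hd', hE]
    ring
  have hu1 : ‖((1 + p * (p ^ 2 * k) : ℤ) : PadicComplex p)‖ = 1 := norm_int_unit ⟨_, Or.inl rfl⟩
  have hu2 : ‖((-1 + p * E : ℤ) : PadicComplex p)‖ = 1 := norm_int_unit ⟨_, Or.inr rfl⟩
  have hc1 : ((1 + p * (p ^ 2 * k) : ℤ) : PadicComplex p) ≠ 0 := by
    intro h
    rw [h, norm_zero] at hu1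
    exact zero_ne_one hu1
  have hE1 : ((-1 + p * E : ℤ) : PadicComplex p) ≠ 0 := by
    intro h
    rw [h, norm_zero] at hu2
    exact zero_ne_one hu2
  have hc1Z : (1 + p * (p ^ 2 * k) : ℤ) ≠ 0 := fun h => hc1 (by rw [h]; simp)
  have hE1Z : (-1 + p * E : ℤ) ≠ 0 := fun h => hE1 (by rw [h]; simp)
  have hcK : (g 1 0 : PadicComplex p) = p ^ 2 * ((1 + p * (p ^ 2 * k) : ℤ) : PadicComplex p) := by
    rw [hc']; push_cast; ring
  refine ⟨?_, ?_, ?_, ?_, ?_⟩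
  · rw [hc']
    exact mul_ne_zero (pow_ne_zero _ hpZ) hc1Z
  · rw [hdet]
    exact mul_ne_zero (pow_ne_zero _ hpZ) hE1Z
  · have e : ((p : PadicComplex p) ^ 2 * ((g 0 0 : PadicComplex p) / (g 1 0 : PadicComplex p)) -
        (1 + p * i)) = p ^ 3 * (((p ^ 2 * a' - (1 + p * i) * k : ℤ) : PadicComplex p) /
          ((1 + p * (p ^ 2 * k) : ℤ) : PadicComplex p)) := by
      rw [hcK, ha']
      field_simp
      push_cast
      ring
    rw [e, norm_mul, norm_pow, norm_p_eq, norm_div, hu1, div_one]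
    have h1 := norm_intCast_le (p := p) (p ^ 2 * a' - (1 + p * i) * k)
    calc (p : ℝ)⁻¹ ^ 3 * _ ≤ (p : ℝ)⁻¹ ^ 3 * 1 := by gcongr
      _ = (p : ℝ)⁻¹ ^ 3 := mul_one _
      _ ≤ _ := pow_le_pow_of_le_one hpi.le hpi1.le (by norm_num)
  · have e : -(g 1 1 : PadicComplex p) / (g 1 0 : PadicComplex p) - s =
        p * (((-(p ^ 2 * l) - s * p ^ 2 * k : ℤ) : PadicComplex p) /
          ((1 + p * (p ^ 2 * k) : ℤ) : PadicComplex p)) := by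
      rw [hcK, hd']
      field_simp
      push_cast
      ring
    rw [e, norm_mul, norm_p_eq, norm_div, hu1, div_one]
    have h1 := norm_intCast_le (p := p) (-(p ^ 2 * l) - s * p ^ 2 * k)
    calc (p : ℝ)⁻¹ * _ ≤ (p : ℝ)⁻¹ * 1 := by gcongr
      _ < 1 := by rw [mul_one]; exact hpi1
  · have e : ((g 0 0 : PadicComplex p) * g 1 1 - g 0 1 * g 1 0) / (g 1 0 : PadicComplex p) ^ 2 =
        ((-1 + p * E : ℤ) : PadicComplex p) /
          ((1 + p * (p ^ 2 * k) : ℤ) : PadicComplex p) ^ 2 := by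
      have h1 : ((g 0 0 : PadicComplex p) * g 1 1 - g 0 1 * g 1 0) =
          ((g 0 0 * g 1 1 - g 0 1 * g 1 0 : ℤ) : PadicComplex p) := by push_cast; ring
      rw [h1, hdet, hcK]
      have h2 : ((p ^ 4 * (-1 + p * E) : ℤ) : PadicComplex p) =
          p ^ 4 * ((-1 + p * E : ℤ) : PadicComplex p) := by push_cast; ring
      rw [h2]
      field_simp
    rw [e, norm_div, norm_pow, hu1, hu2]
    norm_num

end Pool.Agent.Hhelper14.ZP
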