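import Mathlib

/-!
# Evaluation of power series in complete normed fields
-/

namespace Pool.Agent.Hhelper14.ZP

open PowerSeries Finset

/-- the power series `f` converges absolutely at `s`, with value `v` -/
def Ev {K : Type*} [NormedField K] (s : K) (f : PowerSeries K) (v : K) : Prop :=
  Summable (fun n => ‖coeff n f * s ^ n‖) ∧ HasSum (fun n => coeff n f * s ^ n) v

variable {K : Type*} [NormedField K] {s : K} {f g : PowerSeries K} {v w : K}

theorem Ev.unique (hf : Ev s f v) (hg : Ev s f w) : v = w := hf.2.unique hg.2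

theorem Ev.add (hf : Ev s f v) (hg : Ev s g w) : Ev s (f + g) (v + w) := by
  refine ⟨?_, ?_⟩
  · refine Summable.of_nonneg_of_le (fun n => norm_nonneg _) (fun n => ?_) (hf.1.add hg.1)
    rw [map_add, add_mul]
    exact norm_add_le _ _
  · have := hf.2.add hg.2
    simpa [add_mul] using this

theorem Ev.C (s : K) (c : K) : Ev s (PowerSeries.C c) c := by
  have h : ∀ n, n ≠ 0 → coeff n (PowerSeries.C c) * s ^ n = 0 := fun n hn => by
    rw [PowerSeries.coeff_C, if_neg hn, zero_mul]
  refine ⟨?_, ?_⟩
  · exact summable_of_ne_finset_zero (s := {0}) fun n hn => by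
      rw [h n (by simpa using hn), norm_zero]
  · have := hasSum_single (f := fun n => coeff n (PowerSeries.C c) * s ^ n) 0 h
    simpa using this

theorem Ev.X (s : K) : Ev s (PowerSeries.X : PowerSeries K) s := by
  have h : ∀ n, n ≠ 1 → coeff n (PowerSeries.X : PowerSeries K) * s ^ n = 0 := fun n hn => by
    rw [PowerSeries.coeff_X, if_neg hn, zero_mul]
  refine ⟨?_, ?_⟩
  · exact summable_of_ne_finset_zero (s := {1}) fun n hn => by
      rw [h n (by simpa using hn), norm_zero]
  · have := hasSum_single (f := fun n => coeff n (PowerSeries.X : PowerSeries K) * s ^ n) 1 h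
    simpa using this

theorem cauchy_aux [CompleteSpace K] {a b : ℕ → K} (ha : Summable fun n => ‖a n‖)
    (hb : Summable fun n => ‖b n‖) (hv : HasSum a v) (hw : HasSum b w) :
    Summable (fun n => ‖∑ kl ∈ antidiagonal n, a kl.1 * b kl.2‖) ∧
      HasSum (fun n => ∑ kl ∈ antidiagonal n, a kl.1 * b kl.2) (v * w) := by
  have h3 := summable_norm_sum_mul_antidiagonal_of_summable_norm ha hb
  refine ⟨h3, ?_⟩
  have h4 := h3.of_norm.hasSum
  rwa [← tsum_mul_tsum_eq_tsum_sum_antidiagonal_of_summable_norm ha hb, hv.tsum_eq,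
    hw.tsum_eq] at h4

theorem Ev.mul [CompleteSpace K] (hf : Ev s f v) (hg : Ev s g w) : Ev s (f * g) (v * w) := by
  obtain ⟨h1, h1'⟩ := hf
  obtain ⟨h2, h2'⟩ := hg
  have e : ∀ n, coeff n (f * g) * s ^ n = ∑ kl ∈ antidiagonal n,
      (coeff kl.1 f * s ^ kl.1) * (coeff kl.2 g * s ^ kl.2) := by
    intro n
    rw [PowerSeries.coeff_mul, Finset.sum_mul]
    refine Finset.sum_congr rfl fun kl hkl => ?_
    rw [← Finset.HasAntidiagonal.mem_antidiagonal.mp hkl, pow_add]
    ring
  simp only [Ev, e]
  exact cauchy_aux (a := fun n => coeff n f * s ^ n) (b := fun n => coeff n g * s ^ n) h1 h2 h1' h2'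

theorem Ev.one (s : K) : Ev s (1 : PowerSeries K) 1 := by
  have := Ev.C s (1 : K)
  simpa using this

theorem Ev.zero (s : K) : Ev s (0 : PowerSeries K) 0 := by
  have := Ev.C s (0 : K)
  simpa using this

theorem Ev.neg [CompleteSpace K] (hf : Ev s f v) : Ev s (-f) (-v) := by
  have := (Ev.C s (-1 : K)).mul hf
  simpa using this

theorem Ev.sub [CompleteSpace K] (hf : Ev s f v) (hg : Ev s g w) : Ev s (f - g) (v - w) := by
  have := hf.add hg.neg
  simpa [sub_eq_add_neg] using this

theorem Ev.pow [CompleteSpace K] (hf : Ev s f v) (m : ℕ) : Ev s (f ^ m) (v ^ m) := by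
  induction m with
  | zero => simpa using Ev.one s
  | succ m ih => simpa [pow_succ] using ih.mul hf

theorem Ev.prod [CompleteSpace K] {ι : Type*} (S : Finset ι) (F : ι → PowerSeries K) (V : ι → K)
    (h : ∀ i ∈ S, Ev s (F i) (V i)) : Ev s (∏ i ∈ S, F i) (∏ i ∈ S, V i) := by
  classical
  induction S using Finset.induction_on with
  | empty => simpa using Ev.one s
  | insert a S ha ih =>
    rw [Finset.prod_insert ha, Finset.prod_insert ha]
    exact (h a (Finset.mem_insert_self a S)).mul (ih fun i hi => h i (Finset.mem_insert_of_mem hi))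

theorem Ev.sum {ι : Type*} (S : Finset ι) (F : ι → PowerSeries K) (V : ι → K)
    (h : ∀ i ∈ S, Ev s (F i) (V i)) : Ev s (∑ i ∈ S, F i) (∑ i ∈ S, V i) := by
  classical
  induction S using Finset.induction_on with
  | empty => simpa using Ev.zero s
  | insert a S ha ih =>
    rw [Finset.sum_insert ha, Finset.sum_insert ha]
    exact (h a (Finset.mem_insert_self a S)).add (ih fun i hi => h i (Finset.mem_insert_of_mem hi))

/-- the power series `f (c X ^ m)` -/
noncomputable def powComp {R : Type*} [CommRing R] (c : R) (m : ℕ) (f : PowerSeries R) :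
    PowerSeries R :=
  PowerSeries.mk fun n => if m ∣ n then coeff (n / m) f * c ^ (n / m) else 0

theorem map_powComp {R S : Type*} [CommRing R] [CommRing S] (σ : R →+* S) (c : R) (m : ℕ)
    (f : PowerSeries R) : PowerSeries.map σ (powComp c m f) =
      powComp (σ c) m (PowerSeries.map σ f) := by
  ext n
  simp only [powComp, PowerSeries.coeff_map, PowerSeries.coeff_mk]
  split_ifs <;> simp

theorem Ev.powComp {c : K} {m : ℕ} (hm : 0 < m) (h : Ev (c * s ^ m) f v) :
    Ev s (powComp c m f) v := by
  have hinj : Function.Injective (fun n : ℕ => m * n) := fun x y hxy =>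
    Nat.eq_of_mul_eq_mul_left hm hxy
  have e : ∀ n, coeff (m * n) (ZP.powComp c m f) * s ^ (m * n) = coeff n f * (c * s ^ m) ^ n := by
    intro n
    simp only [ZP.powComp, PowerSeries.coeff_mk, dvd_mul_right, if_true,
      Nat.mul_div_cancel_left _ hm]
    rw [mul_pow, pow_mul]
    ring
  have e0 : ∀ n, n ∉ Set.range (fun n : ℕ => m * n) → coeff n (ZP.powComp c m f) * s ^ n = 0 := by
    intro n hn
    simp only [ZP.powComp, PowerSeries.coeff_mk]
    rw [if_neg, zero_mul]
    rintro ⟨k, rfl⟩
    exact hn ⟨k, rfl⟩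
  refine ⟨?_, ?_⟩
  · rw [← hinj.summable_iff (fun n hn => by rw [e0 n hn, norm_zero])]
    refine h.1.congr fun n => ?_
    simp only [Function.comp_apply]
    rw [e n]
  · rw [← hinj.hasSum_iff e0]
    have h2 := h.2
    rw [show (fun n => coeff n f * (c * s ^ m) ^ n) =
      (fun n => coeff n (ZP.powComp c m f) * s ^ n) ∘ (fun n : ℕ => m * n) from by
        funext n; exact (e n).symm] at h2
    exact h2

end Pool.Agent.Hhelper14.ZP
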