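import Pool.Agent.Hhelper14.ZP.Rat
import Pool.Agent.Hhelper14.ZP2.Ev

/-!
# The factorisation of the modular equation over formal power series
-/

namespace Pool.Agent.Hhelper14.ZP

open UpperHalfPlane ModularForm ModularFormClass SlashInvariantFormClass MatrixGroups
  EisensteinSeries Function Metric
open scoped Manifold

variable {N : ℕ}

/-- the `q_N`-parameter at `B τ`, with the root of unity -/
theorem qParam_act' (hN : 0 < N) {B : DD N} (hB : B ∈ FixedDetMatrices.reps (N : ℤ)) :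
    ∃ (a d : ℕ) (c : ℂ), 0 < a ∧ 0 < d ∧ a * d = N ∧ c ^ d = 1 ∧
      ∀ τ : ℍ, Periodic.qParam 1 (act hN B τ : ℂ) = c * qN N τ ^ (a ^ 2) := by
  obtain ⟨a, d, b, ha, hd, had, hact⟩ := rep_shape hN hB
  have hd' : (d : ℂ) ≠ 0 := by exact_mod_cast hd.ne'
  have ha' : (a : ℂ) ≠ 0 := by exact_mod_cast ha.ne'
  set ζ := Complex.exp (2 * Real.pi * Complex.I / d) with hζ
  have hζ1 : ζ ^ d = 1 := (exp_pow_eq_one_iff hd d).mpr dvd_rfl
  refine ⟨a, d, ζ ^ b, ha, hd, had, ?_, fun τ => ?_⟩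
  · rw [← zpow_natCast, ← zpow_mul, mul_comm, zpow_mul, zpow_natCast, hζ1, one_zpow]
  · have hNc : (N : ℂ) = a * d := by rw [← had]; push_cast; ring
    rw [hact, hζ]
    simp only [qN, Periodic.qParam]
    rw [← Complex.exp_int_mul, ← Complex.exp_nat_mul, ← Complex.exp_add]
    congr 1
    push_cast
    rw [hNc]
    field_simp
    ring

theorem exists_Jf : ∃ f : PowerSeries ℂ, (∀ n, PowerSeries.coeff n f ∈ OO) ∧
    PowerSeries.coeff 0 f = 1 ∧
    ∀ τ : ℍ, Ev (Periodic.qParam 1 (τ : ℂ)) f (Periodic.qParam 1 (τ : ℂ) * jInv τ) := by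
  obtain ⟨J, ⟨a, ha, hs⟩, hJ0, hJτ⟩ := exists_J
  refine ⟨PowerSeries.mk a, fun n => ?_, ?_, fun τ => ?_⟩
  · rw [PowerSeries.coeff_mk]; exact ha n
  · rw [PowerSeries.coeff_mk]
    have h1 := hs 0 (by simp)
    have h2 := hasSum_single (f := fun n : ℕ => a n * (0 : ℂ) ^ n) 0
      (fun n hn => by simp [hn])
    have h3 := h1.unique h2
    rw [hJ0] at h3
    simpa using h3.symm
  · have h1 := hs _ (norm_qParam_lt τ)
    rw [← hJτ, mul_comm] at h1
    simp only [Ev, PowerSeries.coeff_mk]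
    exact ⟨h1.summable.norm, h1⟩

theorem exists_qN (hN : 0 < N) {z : ℂ} (hz : ‖z‖ < 1) (hz0 : z ≠ 0) : ∃ τ : ℍ, qN N τ = z :=
  ⟨⟨Periodic.invQParam N z, Periodic.im_invQParam_pos_of_norm_lt_one
    (by exact_mod_cast hN) hz hz0⟩, Periodic.qParam_right_inv (by exact_mod_cast hN.ne') hz0⟩

/-- a power series vanishing on the punctured disc is zero -/
theorem eq_zero_of_ev (hN : 0 < N) {E : PowerSeries ℂ} (h : ∀ τ : ℍ, Ev (qN N τ) E 0) :
    E = 0 := by
  let F : ℂ → ℂ := fun z => if z = 0 then PowerSeries.coeff 0 E else 0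
  have hF : ∀ z : ℂ, ‖z‖ < 1 → HasSum (fun n => PowerSeries.coeff n E * z ^ n) (F z) := by
    intro z hz
    rcases eq_or_ne z 0 with rfl | hz0
    · have := hasSum_single (f := fun n => PowerSeries.coeff n E * (0 : ℂ) ^ n) 0
        (fun n hn => by simp [hn])
      simpa [F] using this
    · obtain ⟨τ, hτ⟩ := exists_qN hN hz hz0
      have := (h τ).2
      rw [hτ] at this
      simpa [F, hz0] using this
  have hcont : ContinuousAt F 0 := by
    have h1 := (hasFPowerSeriesOnBall_of_hasSum hF).analyticAt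
    exact h1.continuousAt
  have hF0 : F 0 = 0 := by
    have h1 : Filter.Tendsto F (nhdsWithin 0 {0}ᶜ) (nhds (F 0)) :=
      hcont.tendsto.mono_left nhdsWithin_le_nhds
    have h2 : Filter.Tendsto F (nhdsWithin 0 {0}ᶜ) (nhds 0) := by
      refine tendsto_const_nhds.congr' ?_
      filter_upwards [self_mem_nhdsWithin] with z hz
      have : z ≠ 0 := hz
      simp [F, this]
    exact tendsto_nhds_unique h1 h2
  have hFz : ∀ z, F z = 0 := by
    intro z
    by_cases hz : z = 0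
    · rw [hz, hF0]
    · simp [F, hz]
  have hz : ∀ z : ℂ, ‖z‖ < 1 → HasSum (fun n : ℕ => (0 : ℂ) * z ^ n) (F z) := by
    intro z _
    rw [hFz z]
    simp
  have h3 := coeff_unique hF hz
  ext n
  rw [congrFun h3 n]
  simp

/-- expansions of the conjugates -/
theorem class_expansion (hN : 0 < N) {f : PowerSeries ℂ}
    (hf : ∀ τ : ℍ, Ev (Periodic.qParam 1 (τ : ℂ)) f (Periodic.qParam 1 (τ : ℂ) * jInv τ))
    (q : QQ N) : ∃ (a d : ℕ) (c : ℂ), 0 < a ∧ 0 < d ∧ a * d = N ∧ c ^ d = 1 ∧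
      ∀ τ : ℍ, Ev (qN N τ) (powComp c (a ^ 2) f) (c * qN N τ ^ (a ^ 2) * jQ hN q τ) := by
  induction q using Quotient.inductionOn' with
  | h A =>
    obtain ⟨B, hB, γ, rfl⟩ := exists_rep hN A
    obtain ⟨a, d, c, ha, hd, had, hc, hq⟩ := qParam_act' hN hB
    refine ⟨a, d, c, ha, hd, had, hc, fun τ => ?_⟩
    rw [jQ_mk, jA_smul]
    have h1 := hf (act hN B τ)
    rw [hq τ] at h1
    exact h1.powComp (by positivity)

/-- **The factorisation of the modular equation**, formally. -/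
theorem formal_identity (hN : 0 < N) [Fintype (QQ N)] {f : PowerSeries ℂ}
    (hf : ∀ τ : ℍ, Ev (Periodic.qParam 1 (τ : ℂ)) f (Periodic.qParam 1 (τ : ℂ) * jInv τ))
    {a : QQ N → ℕ} {c : QQ N → ℂ}
    (hac : ∀ q, ∀ τ : ℍ, Ev (qN N τ) (powComp (c q) (a q ^ 2) f)
      (c q * qN N τ ^ (a q ^ 2) * jQ hN q τ))
    (y : ℂ) (P : Polynomial ℂ) (hP : ∀ τ, P.eval (jInv τ) = ∏ q : QQ N, (y - jQ hN q τ)) :
    (∑ k ∈ Finset.range (P.natDegree + 1), PowerSeries.C (P.coeff k) * powComp 1 N f ^ k *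
      PowerSeries.X ^ (N * (P.natDegree - k))) *
        ∏ q : QQ N, (PowerSeries.C (c q) * PowerSeries.X ^ (a q ^ 2)) =
    PowerSeries.X ^ (N * P.natDegree) *
      ∏ q : QQ N, (PowerSeries.C (y * c q) * PowerSeries.X ^ (a q ^ 2) -
        powComp (c q) (a q ^ 2) f) := by
  rw [← sub_eq_zero]
  apply eq_zero_of_ev hN
  intro τ
  set s := qN N τ with hs
  have h1 : Ev s (powComp 1 N f) (s ^ N * jInv τ) := by
    have h2 := hf τ
    rw [← qN_pow hN] at h2
    have h3 : Ev (1 * s ^ N) f (s ^ N * jInv τ) := by rwa [one_mul]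
    exact h3.powComp hN
  have hL := (Ev.sum (s := s) (Finset.range (P.natDegree + 1)) _ _ fun k _ =>
    ((Ev.C s (P.coeff k)).mul (h1.pow k)).mul ((Ev.X s).pow (N * (P.natDegree - k)))).mul
    (Ev.prod (s := s) Finset.univ _ _ fun (q : QQ N) _ => (Ev.C s (c q)).mul ((Ev.X s).pow (a q ^ 2)))
  have hR := ((Ev.X s).pow (N * P.natDegree)).mul
    (Ev.prod (s := s) Finset.univ _ _ fun (q : QQ N) _ =>
      ((Ev.C s (y * c q)).mul ((Ev.X s).pow (a q ^ 2))).sub (hac q τ))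
  have h := hL.sub hR
  convert h using 1
  have e1 : ∑ k ∈ Finset.range (P.natDegree + 1), P.coeff k * (s ^ N * jInv τ) ^ k *
      s ^ (N * (P.natDegree - k)) = s ^ (N * P.natDegree) * P.eval (jInv τ) := by
    rw [Polynomial.eval_eq_sum_range, Finset.mul_sum]
    refine Finset.sum_congr rfl fun k hk => ?_
    have hk' : k ≤ P.natDegree := by
      have := Finset.mem_range.mp hk
      omega
    have e2 : N * P.natDegree = N * k + N * (P.natDegree - k) := by
      rw [← mul_add, Nat.add_sub_cancel' hk']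
    rw [e2, pow_add, mul_pow, ← pow_mul]
    ring
  have e2 : ∏ q : QQ N, (y * c q * s ^ (a q ^ 2) - c q * s ^ (a q ^ 2) * jQ hN q τ) =
      (∏ q : QQ N, (y - jQ hN q τ)) * ∏ q : QQ N, (c q * s ^ (a q ^ 2)) := by
    rw [← Finset.prod_mul_distrib]
    refine Finset.prod_congr rfl fun q _ => ?_
    ring
  rw [e1, e2, hP τ]
  ring

end Pool.Agent.Hhelper14.ZP
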