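import Pool.Agent.Hhelper14.ZP2.PSer

/-!
# Tate periods of numbers close to `(1 + p c) / p ^ 2`
-/

namespace Pool.Agent.Hhelper14.ZP

open PowerSeries Finset

variable {p : ℕ} [hp : Fact p.Prime]

theorem coe_natCast_eq (m : ℕ) :
    (((algebraMap ℚ_[p] (PadicAlgCl p)) (m : ℚ_[p]) : PadicAlgCl p) : PadicComplex p) = m := by
  rw [map_natCast]
  exact PadicComplex.coe_natCast p m

theorem norm_natCast_eq (m : ℕ) : ‖(m : PadicComplex p)‖ = ‖(m : ℚ_[p])‖ := by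
  have h := PadicComplex.norm_extends' p (m : ℚ_[p])
  rw [← h, coe_natCast_eq]

theorem norm_natCast_le (m : ℕ) : ‖(m : PadicComplex p)‖ ≤ 1 := by
  rw [norm_natCast_eq]
  exact_mod_cast Padic.norm_int_le_one (p := p) (m : ℤ)

theorem norm_intCast_eq (m : ℤ) : ‖(m : PadicComplex p)‖ = ‖(m : ℚ_[p])‖ := by
  obtain ⟨k, rfl | rfl⟩ := m.eq_nat_or_neg
  · simp only [Int.cast_natCast]
    exact norm_natCast_eq k
  · simp only [Int.cast_neg, Int.cast_natCast, norm_neg]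
    exact norm_natCast_eq k

theorem norm_intCast_le (m : ℤ) : ‖(m : PadicComplex p)‖ ≤ 1 := by
  rw [norm_intCast_eq]
  exact Padic.norm_int_le_one (p := p) m

theorem norm_p_eq : ‖(p : PadicComplex p)‖ = (p : ℝ)⁻¹ := by
  rw [norm_natCast_eq, Padic.norm_p]

theorem norm_natCast_ge {m : ℕ} (hm : 0 < m) : (m : ℝ)⁻¹ ≤ ‖(m : PadicComplex p)‖ := by
  obtain ⟨v, m', hm', rfl⟩ := Nat.exists_eq_pow_mul_and_not_dvd hm.ne' p hp.out.ne_one
  have h1 : ‖(m' : ℚ_[p])‖ = 1 := by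
    rw [Padic.norm_natCast_eq_one_iff]
    exact (Nat.Prime.coprime_iff_not_dvd hp.out).mpr hm'
  have hp0 : (0 : ℝ) < p := by exact_mod_cast hp.out.pos
  have hm0 : 0 < m' := Nat.pos_of_ne_zero fun h => hm' (h ▸ dvd_zero p)
  have hm1 : (1 : ℝ) ≤ m' := by exact_mod_cast hm0
  rw [norm_natCast_eq]
  push_cast
  rw [norm_mul, norm_pow, h1, mul_one, Padic.norm_p, mul_inv, inv_pow]
  exact mul_le_of_le_one_right (by positivity) (inv_le_one_of_one_le₀ hm1)

theorem norm_pow_sub_one (hp3 : 3 ≤ p) {δ : PadicComplex p} (hδ : ‖δ‖ ≤ (p : ℝ)⁻¹) (k : ℕ) :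
    ‖(1 + δ) ^ (k + 1) - 1‖ = ‖((k + 1 : ℕ) : PadicComplex p)‖ * ‖δ‖ := by
  rcases eq_or_ne δ 0 with rfl | hδ0
  · simp
  have hp3' : (3 : ℝ) ≤ p := by exact_mod_cast hp3
  have hδpos : 0 < ‖δ‖ := norm_pos_iff.mpr hδ0
  have hkpos : 0 < ‖((k + 1 : ℕ) : PadicComplex p)‖ := norm_pos_iff.mpr (by
    exact_mod_cast Nat.succ_ne_zero k)
  have hδ3 : ‖δ‖ ≤ 1 / 3 := hδ.trans (by
    rw [one_div]
    exact inv_anti₀ (by norm_num) hp3')
  have e : (1 + δ) ^ (k + 1) - 1 = ((k + 1 : ℕ) : PadicComplex p) * δ +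
      ∑ j ∈ range k, ((k + 1).choose (j + 2) : PadicComplex p) * δ ^ (j + 2) := by
    rw [add_comm 1 δ, add_pow, Finset.sum_range_succ', Finset.sum_range_succ']
    simp only [one_pow, mul_one, zero_add, pow_one, pow_zero, Nat.choose_zero_right, Nat.cast_one,
      Nat.choose_one_right]
    rw [add_sub_cancel_right, add_comm, mul_comm δ]
    congr 1
    refine Finset.sum_congr rfl fun j _ => ?_
    rw [mul_comm]
  have hsum : ‖∑ j ∈ range k, ((k + 1).choose (j + 2) : PadicComplex p) * δ ^ (j + 2)‖ ≤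
      (2 / 3) * (‖((k + 1 : ℕ) : PadicComplex p)‖ * ‖δ‖) := by
    refine IsUltrametricDist.norm_sum_le_of_forall_le_of_nonneg (by positivity) fun j _ => ?_
    have h1 : ((k + 1 : ℕ) : PadicComplex p) * (k.choose (j + 1) : PadicComplex p) =
        ((k + 1).choose (j + 2) : PadicComplex p) * ((j + 2 : ℕ) : PadicComplex p) := by
      exact_mod_cast Nat.add_one_mul_choose_eq k (j + 1)
    have h2 := congrArg norm h1
    rw [norm_mul, norm_mul] at h2
    have h3 := norm_natCast_ge (p := p) (m := j + 2) (by omega)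
    have h4 := norm_natCast_le (p := p) (k.choose (j + 1))
    have h5 : ‖((k + 1).choose (j + 2) : PadicComplex p)‖ ≤
        ‖((k + 1 : ℕ) : PadicComplex p)‖ * (j + 2 : ℕ) := by
      have h6 : ‖((k + 1).choose (j + 2) : PadicComplex p)‖ * ((j + 2 : ℕ) : ℝ)⁻¹ ≤
          ‖((k + 1 : ℕ) : PadicComplex p)‖ := by
        calc _ ≤ ‖((k + 1).choose (j + 2) : PadicComplex p)‖ * ‖((j + 2 : ℕ) : PadicComplex p)‖ := by
              gcongr
          _ = _ := h2.symm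
          _ ≤ _ := mul_le_of_le_one_right (norm_nonneg _) h4
      rwa [mul_inv_le_iff₀ (by positivity)] at h6
    rw [norm_mul, norm_pow]
    have h7 : ((j + 2 : ℕ) : ℝ) * ‖δ‖ ^ (j + 1) ≤ 2 / 3 := by
      have h8 : ‖δ‖ ^ (j + 1) ≤ (1 / 3) ^ (j + 1) := by gcongr
      have h9 : ((j + 2 : ℕ) : ℝ) * (1 / 3) ^ (j + 1) ≤ 2 / 3 := by
        clear * -
        induction j with
        | zero => norm_num
        | succ j ih =>
          rw [pow_succ]
          push_cast at ih ⊢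
          have : (0 : ℝ) ≤ (1 / 3) ^ (j + 1) := by positivity
          nlinarith
      calc _ ≤ ((j + 2 : ℕ) : ℝ) * (1 / 3) ^ (j + 1) := by gcongr
        _ ≤ _ := h9
    calc _ ≤ (‖((k + 1 : ℕ) : PadicComplex p)‖ * (j + 2 : ℕ)) * ‖δ‖ ^ (j + 2) := by gcongr
      _ = (((j + 2 : ℕ) : ℝ) * ‖δ‖ ^ (j + 1)) * (‖((k + 1 : ℕ) : PadicComplex p)‖ * ‖δ‖) := by ring
      _ ≤ _ := by gcongr
  have hmain : ‖((k + 1 : ℕ) : PadicComplex p) * δ‖ = ‖((k + 1 : ℕ) : PadicComplex p)‖ * ‖δ‖ :=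
    norm_mul _ _
  have hlt : ‖∑ j ∈ range k, ((k + 1).choose (j + 2) : PadicComplex p) * δ ^ (j + 2)‖ <
      ‖((k + 1 : ℕ) : PadicComplex p) * δ‖ := by
    rw [hmain]
    have : 0 < ‖((k + 1 : ℕ) : PadicComplex p)‖ * ‖δ‖ := by positivity
    linarith
  rw [e, IsUltrametricDist.norm_add_eq_max_of_norm_ne_norm hlt.ne', max_eq_left hlt.le, hmain]

/-- there are no nontrivial roots of unity close to `1` -/
theorem torsion_eq_one (hp3 : 3 ≤ p) {η : PadicComplex p} (hη : ‖η - 1‖ ≤ (p : ℝ)⁻¹) {d : ℕ}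
    (hd : 0 < d) (h : η ^ d = 1) : η = 1 := by
  obtain ⟨k, rfl⟩ : ∃ k, d = k + 1 := ⟨d - 1, by omega⟩
  have h1 := norm_pow_sub_one hp3 hη k
  rw [add_sub_cancel, h, sub_self, norm_zero] at h1
  have h2 : ‖((k + 1 : ℕ) : PadicComplex p)‖ ≠ 0 := norm_ne_zero_iff.mpr (by
    exact_mod_cast Nat.succ_ne_zero k)
  have h3 : ‖η - 1‖ = 0 := by
    rcases mul_eq_zero.mp h1.symm with h | h
    · exact absurd h h2
    · exact h
  exact sub_eq_zero.mp (norm_eq_zero.mp h3)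

theorem norm_one_add (c : ℤ) : ‖(1 + p * c : PadicComplex p)‖ = 1 := by
  have h1 : ((1 + p * c : ℤ) : PadicComplex p) = 1 + p * c := by push_cast; ring
  rw [← h1, norm_intCast_eq, Padic.norm_intCast_eq_one_iff]
  exact ⟨1, -c, by ring⟩

/-- **Numbers close to `(1 + p c) / p²` for different residues `c` are not parameters of
isogenous Tate curves.** -/
theorem not_tate (hp3 : 3 ≤ p) {f : PowerSeries (PadicComplex p)} (hf : ∀ n, ‖coeff n f‖ ≤ 1)
    (h0 : coeff 0 f = 1) {x x' : PadicComplex p} {c c' : ℤ}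
    (hx : ‖p ^ 2 * x - (1 + p * c)‖ ≤ (p : ℝ)⁻¹ ^ 2)
    (hx' : ‖p ^ 2 * x' - (1 + p * c')‖ ≤ (p : ℝ)⁻¹ ^ 2) (hcc : ¬ (p : ℤ) ∣ c - c')
    {q u : PadicComplex p} (hq : ‖q‖ < 1) (hu : ‖u‖ < 1) (hqx : q * x = val f q)
    (hux : u * x' = val f u) {a d : ℕ} (hd : 0 < d) (hrel : u ^ d = q ^ a) : False := by
  have hp0 : (0 : ℝ) < p := by exact_mod_cast hp.out.pos
  have hpi : (0 : ℝ) < (p : ℝ)⁻¹ := by positivity
  have hpi1 : (p : ℝ)⁻¹ < 1 := inv_lt_one_of_one_lt₀ (by exact_mod_cast hp.out.one_lt)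
  have hpi2 : (p : ℝ)⁻¹ ^ 2 < (p : ℝ)⁻¹ := by nlinarith
  have hnx : ∀ {y : PadicComplex p} {e : ℤ}, ‖p ^ 2 * y - (1 + p * e)‖ ≤ (p : ℝ)⁻¹ ^ 2 →
      ‖(p ^ 2 * y : PadicComplex p)‖ = 1 := by
    intro y e hy
    have h1 : (p ^ 2 * y : PadicComplex p) = (p ^ 2 * y - (1 + p * e)) + (1 + p * e) := by ring
    have h2 : ‖(p ^ 2 * y - (1 + p * e) : PadicComplex p)‖ < ‖(1 + p * e : PadicComplex p)‖ := by
      rw [norm_one_add]
      linarith
    rw [h1, IsUltrametricDist.norm_add_eq_max_of_norm_ne_norm h2.ne, max_eq_right h2.le,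
      norm_one_add]
  have hn1 := hnx hx
  have hn2 := hnx hx'
  rw [norm_mul, norm_pow, norm_p_eq] at hn1 hn2
  have hq1 : ‖q‖ * ‖x‖ = 1 := by rw [← norm_mul, hqx, norm_val hf h0 hq]
  have hu1 : ‖u‖ * ‖x'‖ = 1 := by rw [← norm_mul, hux, norm_val hf h0 hu]
  have hx0 : 0 < ‖x‖ := by
    rcases (norm_nonneg x).eq_or_lt with h | h
    · rw [← h, mul_zero] at hq1; norm_num at hq1
    · exact h
  have hx0' : 0 < ‖x'‖ := by
    rcases (norm_nonneg x').eq_or_lt with h | h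
    · rw [← h, mul_zero] at hu1; norm_num at hu1
    · exact h
  have hq2 : ‖q‖ = (p : ℝ)⁻¹ ^ 2 := mul_right_cancel₀ hx0.ne' (by rw [hq1, hn1])
  have hu2 : ‖u‖ = (p : ℝ)⁻¹ ^ 2 := mul_right_cancel₀ hx0'.ne' (by rw [hu1, hn2])
  have hq0 : q ≠ 0 := by
    intro h
    rw [h, norm_zero] at hq2
    have : (0 : ℝ) < (p : ℝ)⁻¹ ^ 2 := by positivity
    linarith
  -- the exponents agree
  have had : d = a := by
    have h1 := congrArg norm hrel
    rw [norm_pow, norm_pow, hq2, hu2] at h1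
    exact pow_right_injective₀ (by positivity) (by nlinarith) h1
  subst had
  set η := u / q with hη
  have hηd : η ^ d = 1 := by
    rw [hη, div_pow, hrel, div_self (pow_ne_zero _ hq0)]
  have huq : u = η * q := by rw [hη]; field_simp
  have hη1 : ‖η‖ = 1 := by
    rw [hη, norm_div, hu2, hq2, div_self (by positivity)]
  -- comparison
  have h1 : ‖x - η * x'‖ ≤ 1 := by
    have h2 : ‖q * x - u * x'‖ ≤ (p : ℝ)⁻¹ ^ 2 := by
      rw [hqx, hux]
      refine (norm_val_sub_le hf hq hu).trans ?_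
      rw [sub_eq_add_neg]
      refine (IsUltrametricDist.norm_add_le_max _ _).trans ?_
      rw [norm_neg, hq2, hu2, max_self]
    have h3 : q * x - u * x' = q * (x - η * x') := by rw [huq]; ring
    rw [h3, norm_mul, hq2] at h2
    have h4 : (0 : ℝ) < (p : ℝ)⁻¹ ^ 2 := by positivity
    nlinarith
  set A : PadicComplex p := 1 + p * c with hA
  set B : PadicComplex p := 1 + p * c' with hB
  have hB1 : ‖B‖ = 1 := norm_one_add c'
  have h2 : ‖A - η * B‖ ≤ (p : ℝ)⁻¹ ^ 2 := by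
    have e : A - η * B = -(p ^ 2 * x - A) + (p ^ 2 * (x - η * x') + η * (p ^ 2 * x' - B)) := by ring
    rw [e]
    refine (IsUltrametricDist.norm_add_le_max _ _).trans (max_le ?_ ?_)
    · rw [norm_neg]; exact hx
    · refine (IsUltrametricDist.norm_add_le_max _ _).trans (max_le ?_ ?_)
      · rw [norm_mul, norm_pow, norm_p_eq]
        exact mul_le_of_le_one_right (by positivity) h1
      · rw [norm_mul, hη1, one_mul]; exact hx'
  have h3 : ‖(p * (c - c' : ℤ) : PadicComplex p)‖ = (p : ℝ)⁻¹ := by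
    rw [norm_mul, norm_p_eq]
    have : ‖((c - c' : ℤ) : PadicComplex p)‖ = 1 := by
      rw [norm_intCast_eq]
      refine le_antisymm (Padic.norm_int_le_one _) ?_
      by_contra hcon
      exact hcc (Padic.norm_intCast_lt_one_iff.mp (not_le.mp hcon))
    rw [this, mul_one]
  have h4 : ‖(η - 1) * B‖ = (p : ℝ)⁻¹ := by
    have e : (η - 1) * B = p * (c - c' : ℤ) + -(A - η * B) := by
      rw [hA, hB]; push_cast; ring
    have h5 : ‖-(A - η * B)‖ < ‖(p * (c - c' : ℤ) : PadicComplex p)‖ := by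
      rw [norm_neg, h3]; linarith
    rw [e, IsUltrametricDist.norm_add_eq_max_of_norm_ne_norm h5.ne', max_eq_left h5.le, h3]
  rw [norm_mul, hB1, mul_one] at h4
  have h5 := torsion_eq_one hp3 h4.le hd hηd
  rw [h5, sub_self, norm_zero] at h4
  exact hpi.ne h4

end Pool.Agent.Hhelper14.ZP
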