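import Pool.Agent.Hhelper14.ZP2.Formal
import Pool.Agent.Hhelper14.ZP2.Tate
import Pool.Agent.Hhelper14.ZP2.Emb

/-!
# Hecke related `j`-invariants have isogenous Tate curves
-/

namespace Pool.Agent.Hhelper14.ZP

open UpperHalfPlane ModularForm MatrixGroups Function PowerSeries

/-- roots of monic integral polynomials have norm at most one -/
theorem norm_le_of_root {K : Type*} [NormedField K] [IsUltrametricDist K] {x : K}
    {P : Polynomial ℤ} (hP : P.Monic) (hPx : P.eval₂ (Int.castRingHom K) x = 0)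
    (hZ : ∀ m : ℤ, ‖(m : K)‖ ≤ 1) : ‖x‖ ≤ 1 := by
  by_contra hcon
  rw [not_le] at hcon
  rw [Polynomial.eval₂_eq_sum_range, Finset.sum_range_succ] at hPx
  have h1 : (Int.castRingHom K) (P.coeff P.natDegree) = 1 := by
    rw [Polynomial.coeff_natDegree, hP.leadingCoeff, map_one]
  rw [h1, one_mul] at hPx
  rcases Nat.eq_zero_or_pos P.natDegree with h0 | h0
  · rw [h0] at hPx
    simp at hPx
  obtain ⟨m, hm⟩ : ∃ m, P.natDegree = m + 1 := ⟨P.natDegree - 1, by omega⟩
  have h2 : ‖∑ k ∈ Finset.range P.natDegree, (Int.castRingHom K) (P.coeff k) * x ^ k‖ ≤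
      ‖x‖ ^ m := by
    refine IsUltrametricDist.norm_sum_le_of_forall_le_of_nonneg (by positivity) fun k hk => ?_
    rw [norm_mul, norm_pow]
    have h3 : ‖(Int.castRingHom K) (P.coeff k)‖ ≤ 1 := hZ (P.coeff k)
    have hk' : k ≤ m := by
      have := Finset.mem_range.mp hk
      omega
    calc _ ≤ 1 * ‖x‖ ^ k := by gcongr
      _ = ‖x‖ ^ k := one_mul _
      _ ≤ ‖x‖ ^ m := pow_le_pow_right₀ hcon.le hk'
  have h3 : x ^ P.natDegree = - ∑ k ∈ Finset.range P.natDegree,
      (Int.castRingHom K) (P.coeff k) * x ^ k := by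
    linear_combination hPx
  have h4 := congrArg norm h3
  rw [norm_neg, norm_pow] at h4
  have h5 : ‖x‖ ^ m < ‖x‖ ^ P.natDegree := by
    rw [hm]
    exact pow_lt_pow_right₀ hcon (Nat.lt_succ_self m)
  linarith

variable {K : Type*} [NormedField K] [IsUltrametricDist K]

theorem norm_OO_le (hZ : ∀ m : ℤ, ‖(m : K)‖ ≤ 1) (σ : ℂ →+* K) {x : ℂ} (hx : x ∈ OO) :
    ‖σ x‖ ≤ 1 := by
  have h1 : IsIntegral ℤ x := hx
  obtain ⟨P, hP, hPx⟩ := h1
  refine norm_le_of_root hP ?_ hZ
  have h3 := congrArg σ hPx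
  rw [map_zero, Polynomial.hom_eval₂] at h3
  have h4 : σ.comp (algebraMap ℤ ℂ) = Int.castRingHom K := RingHom.ext_int _ _
  rwa [h4] at h3

/-- Tate parameters -/
def IsTate {K : Type*} [NormedField K] (f : PowerSeries K) (x q : K) : Prop :=
  ‖q‖ < 1 ∧ q * x = val f q

variable [CompleteSpace K] [IsAlgClosed K]

/-- a Hecke translate of a number with nonintegral `j` has an isogenous Tate parameter -/
theorem tate_of_hecke {fC : PowerSeries ℂ} (hfO : ∀ n, coeff n fC ∈ OO) (hf0 : coeff 0 fC = 1)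
    (hf : ∀ τ : ℍ, Ev (Function.Periodic.qParam 1 (τ : ℂ)) fC
      (Function.Periodic.qParam 1 (τ : ℂ) * jInv τ))
    (hZ : ∀ m : ℤ, ‖(m : K)‖ ≤ 1) (σ : ℂ →+* K) {N : ℕ} (hN : 0 < N) (A : DD N) (τ₀ : ℍ)
    (hx : 1 < ‖σ (jInv τ₀)‖) :
    ∃ (q u : K) (a d : ℕ), 0 < a ∧ 0 < d ∧
      IsTate (PowerSeries.map σ fC) (σ (jInv τ₀)) q ∧
      IsTate (PowerSeries.map σ fC) (σ (jA hN A τ₀)) u ∧ u ^ d = q ^ a := by
  classical
  have := finite_QQ hN
  have : Fintype (QQ N) := Fintype.ofFinite _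
  choose a d c ha hd had hc hac using class_expansion hN hf
  set f := PowerSeries.map σ fC with hfdef
  have hfn : ∀ n, ‖coeff n f‖ ≤ 1 := fun n => by
    rw [hfdef, PowerSeries.coeff_map]
    exact norm_OO_le hZ σ (hfO n)
  have hf0' : coeff 0 f = 1 := by
    rw [hfdef, PowerSeries.coeff_map, hf0, map_one]
  obtain ⟨q, hq1, hqx⟩ := exists_q hfn hf0' hx
  have hq0 : q ≠ 0 := by
    rintro rfl
    rw [zero_mul, val_zero hfn, hf0'] at hqx
    exact zero_ne_one hqx
  obtain ⟨s, hs⟩ := IsAlgClosed.exists_pow_nat_eq q hN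
  have hs0 : s ≠ 0 := by
    rintro rfl
    rw [zero_pow hN.ne'] at hs
    exact hq0 hs.symm
  have hs1 : ‖s‖ < 1 := by
    by_contra hcon
    rw [not_lt] at hcon
    have h1 : 1 ≤ ‖s‖ ^ N := one_le_pow₀ hcon
    rw [← norm_pow, hs] at h1
    linarith
  -- the polynomial
  set y := jA hN A τ₀ with hy
  choose Pk hPk using charP_coeff hN
  let P : Polynomial ℂ := ∑ k ∈ Finset.range ((charP hN).natDegree + 1),
    Polynomial.C (y ^ k) * (Pk k).map OO.subtype
  have hP : ∀ τ, P.eval (jInv τ) = ∏ q : QQ N, (y - jQ hN q τ) := by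
    intro τ
    have h1 : ((charP hN).map (evalAt N τ)).eval y = ∏ q : QQ N, (y - jQ hN q τ) := by
      rw [charP_map, Polynomial.eval_prod]
      refine Finset.prod_congr rfl fun q _ => ?_
      rw [Polynomial.eval_sub, Polynomial.eval_X, Polynomial.eval_C]
    rw [← h1, Polynomial.eval_map, Polynomial.eval₂_eq_sum_range, Polynomial.eval_finsetSum]
    refine Finset.sum_congr rfl fun k _ => ?_
    rw [Polynomial.eval_mul, Polynomial.eval_C, Polynomial.eval_map, ← hPk k τ, mul_comm]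
  have hP0 : P.eval (jInv τ₀) = 0 := by
    rw [hP τ₀]
    refine Finset.prod_eq_zero (Finset.mem_univ (Quotient.mk'' A)) ?_
    rw [jQ_mk, sub_self]
  have hid := congrArg (PowerSeries.map σ) (formal_identity hN hf hac y P hP)
  simp only [map_mul, map_sum, map_prod, map_pow, map_sub, PowerSeries.map_C, PowerSeries.map_X,
    map_powComp, map_one, ← hfdef] at hid
  -- evaluate at `s`
  have h1 : Ev s (powComp 1 N f) (q * σ (jInv τ₀)) := by
    rw [hqx]
    have h3 : Ev (1 * s ^ N) f (val f q) := by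
      rw [one_mul, hs]
      exact ev_val hfn hq1
    exact h3.powComp hN
  have hcn : ∀ r : QQ N, ‖σ (c r)‖ = 1 := by
    intro r
    have h2 := congrArg (fun z => ‖σ z‖) (hc r)
    simp only [map_pow, norm_pow, map_one, norm_one] at h2
    exact (pow_eq_one_iff_of_nonneg (norm_nonneg _) (hd r).ne').mp h2
  have hun : ∀ r : QQ N, ‖σ (c r) * s ^ (a r ^ 2)‖ < 1 := by
    intro r
    rw [norm_mul, hcn, one_mul, norm_pow]
    exact pow_lt_one₀ (norm_nonneg _) hs1 (pow_pos (ha r) 2).ne'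
  have h2 : ∀ r : QQ N, Ev s (powComp (σ (c r)) (a r ^ 2) f) (val f (σ (c r) * s ^ (a r ^ 2))) :=
    fun r => (ev_val hfn (hun r)).powComp (pow_pos (ha r) 2)
  have hL := (Ev.sum (s := s) (Finset.range (P.natDegree + 1)) _ _ fun k _ =>
    ((Ev.C s (σ (P.coeff k))).mul (h1.pow k)).mul ((Ev.X s).pow (N * (P.natDegree - k)))).mul
    (Ev.prod (s := s) Finset.univ _ _ fun (r : QQ N) _ =>
      (Ev.C s (σ (c r))).mul ((Ev.X s).pow (a r ^ 2)))
  have hR := ((Ev.X s).pow (N * P.natDegree)).mul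
    (Ev.prod (s := s) Finset.univ _ _ fun (r : QQ N) _ =>
      (((Ev.C s (σ y)).mul (Ev.C s (σ (c r)))).mul ((Ev.X s).pow (a r ^ 2))).sub (h2 r))
  rw [hid] at hL
  have hval := hR.unique hL
  have e1 : ∑ k ∈ Finset.range (P.natDegree + 1), σ (P.coeff k) * (q * σ (jInv τ₀)) ^ k *
      s ^ (N * (P.natDegree - k)) = 0 := by
    have e2 : ∑ k ∈ Finset.range (P.natDegree + 1), σ (P.coeff k) * (q * σ (jInv τ₀)) ^ k *
      s ^ (N * (P.natDegree - k)) = q ^ P.natDegree * σ (P.eval (jInv τ₀)) := by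
      rw [Polynomial.eval_eq_sum_range, map_sum, Finset.mul_sum]
      refine Finset.sum_congr rfl fun k hk => ?_
      have hk' : k ≤ P.natDegree := by
        have := Finset.mem_range.mp hk
        omega
      rw [pow_mul, hs, map_mul, map_pow]
      have e3 : q ^ P.natDegree = q ^ k * q ^ (P.natDegree - k) := by
        rw [← pow_add, Nat.add_sub_cancel' hk']
      rw [e3, mul_pow]
      ring
    rw [e2, hP0, map_zero, mul_zero]
  rw [e1, zero_mul] at hval
  have hne : s ^ (N * P.natDegree) ≠ 0 := pow_ne_zero _ hs0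
  have hprod := (mul_eq_zero.mp hval).resolve_left hne
  obtain ⟨r, -, hr⟩ := Finset.prod_eq_zero_iff.mp hprod
  refine ⟨q, σ (c r) * s ^ (a r ^ 2), a r, d r, ha r, hd r, ⟨hq1, hqx⟩, ⟨hun r, ?_⟩, ?_⟩
  · rw [← sub_eq_zero, ← hr]
    ring
  · rw [mul_pow, ← map_pow, hc r, map_one, one_mul, ← pow_mul]
    have e4 : a r ^ 2 * d r = N * a r := by rw [← had r]; ring
    rw [e4, pow_mul, hs]

end Pool.Agent.Hhelper14.ZP
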