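import Mathlib

/-!
# Integral polynomials are compatible with reduction
-/

namespace Pool.Agent.Hhelper14.ZP

open MvPolynomial

variable {K : Type*} [NormedField K] [IsUltrametricDist K]

theorem norm_sum_lt {ι : Type*} (S : Finset ι) (f : ι → K) (h : ∀ i ∈ S, ‖f i‖ < 1) :
    ‖∑ i ∈ S, f i‖ < 1 := by
  classical
  induction S using Finset.induction_on with
  | empty => simp
  | insert a S ha ih =>
    rw [Finset.sum_insert ha]
    exact (IsUltrametricDist.norm_add_le_max _ _).trans_lt (max_lt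
      (h a (Finset.mem_insert_self a S)) (ih fun i hi => h i (Finset.mem_insert_of_mem hi)))

theorem norm_prod_le_one {ι : Type*} (S : Finset ι) (f : ι → K) (h : ∀ i ∈ S, ‖f i‖ ≤ 1) :
    ‖∏ i ∈ S, f i‖ ≤ 1 := by
  rw [norm_prod]
  exact Finset.prod_le_one (fun i _ => norm_nonneg _) h

theorem norm_prod_sub_lt {ι : Type*} (S : Finset ι) (z w : ι → K) (hz : ∀ i ∈ S, ‖z i‖ ≤ 1)
    (hw : ∀ i ∈ S, ‖w i‖ ≤ 1) (h : ∀ i ∈ S, ‖z i - w i‖ < 1) :
    ‖∏ i ∈ S, z i - ∏ i ∈ S, w i‖ < 1 := by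
  classical
  induction S using Finset.induction_on with
  | empty => simp
  | insert a S ha ih =>
    rw [Finset.prod_insert ha, Finset.prod_insert ha]
    have e : z a * ∏ i ∈ S, z i - w a * ∏ i ∈ S, w i =
        (z a - w a) * ∏ i ∈ S, z i + w a * (∏ i ∈ S, z i - ∏ i ∈ S, w i) := by ring
    rw [e]
    refine (IsUltrametricDist.norm_add_le_max _ _).trans_lt (max_lt ?_ ?_)
    · rw [norm_mul]
      exact (mul_le_of_le_one_right (norm_nonneg _) (norm_prod_le_one S z fun i hi =>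
        hz i (Finset.mem_insert_of_mem hi))).trans_lt (h a (Finset.mem_insert_self a S))
    · rw [norm_mul]
      exact (mul_le_of_le_one_left (norm_nonneg _) (hw a (Finset.mem_insert_self a S))).trans_lt
        (ih (fun i hi => hz i (Finset.mem_insert_of_mem hi))
          (fun i hi => hw i (Finset.mem_insert_of_mem hi))
          (fun i hi => h i (Finset.mem_insert_of_mem hi)))

theorem norm_pow_sub_lt {z w : K} (hz : ‖z‖ ≤ 1) (hw : ‖w‖ ≤ 1) (h : ‖z - w‖ < 1) (k : ℕ) :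
    ‖z ^ k - w ^ k‖ < 1 := by
  have := norm_prod_sub_lt (Finset.range k) (fun _ => z) (fun _ => w) (fun _ _ => hz)
    (fun _ _ => hw) (fun _ _ => h)
  simpa using this

/-- reduction of values of integral polynomials -/
theorem norm_eval_sub_eval_lt {ι : Type*} [Fintype ι] {F : MvPolynomial ι K}
    (hF : ∀ μ, ‖F.coeff μ‖ ≤ 1) {z w : ι → K} (hz : ∀ i, ‖z i‖ ≤ 1) (hw : ∀ i, ‖w i‖ ≤ 1)
    (h : ∀ i, ‖z i - w i‖ < 1) : ‖eval z F - eval w F‖ < 1 := by
  rw [MvPolynomial.eval_eq', MvPolynomial.eval_eq', ← Finset.sum_sub_distrib]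
  refine norm_sum_lt _ _ fun μ _ => ?_
  rw [← mul_sub, norm_mul]
  refine (mul_le_of_le_one_left (norm_nonneg _) (hF μ)).trans_lt ?_
  refine norm_prod_sub_lt _ _ _ (fun i _ => ?_) (fun i _ => ?_) fun i _ =>
    norm_pow_sub_lt (hz i) (hw i) (h i) _
  · rw [norm_pow]; exact pow_le_one₀ (norm_nonneg _) (hz i)
  · rw [norm_pow]; exact pow_le_one₀ (norm_nonneg _) (hw i)

end Pool.Agent.Hhelper14.ZP
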