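import Pool.Agent.Hhelper14.ZP2.Translate

/-!
# Every subvariety has translates without atypical intersections
-/

namespace Pool.Agent.Hhelper14.ZP

open MvPolynomial

variable {n : ℕ}

theorem eval_ne_zero_of_close {K : Type*} [NormedField K] [IsUltrametricDist K]
    (hZ : ∀ m : ℤ, ‖(m : K)‖ ≤ 1) (σ : ℂ →+* K) {ι : Type*} [Fintype ι] {H : MvPolynomial ι ℂ}
    (hH : ∀ μ, ‖σ (H.coeff μ)‖ ≤ 1) {s : ι → ℤ} (hs : 1 ≤ ‖σ (eval (fun i => (s i : ℂ)) H)‖)
    {y : ι → ℂ} (hy : ∀ i, ‖σ (y i) - (s i : K)‖ < 1) : eval y H ≠ 0 := by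
  intro h0
  have h1 : ∀ z : ι → ℂ, eval (fun i => σ (z i)) (MvPolynomial.map σ H) = σ (eval z H) := by
    intro z
    rw [MvPolynomial.eval_map]
    exact (MvPolynomial.eval₂_comp_left σ (RingHom.id ℂ) z H).symm
  have hy1 : ∀ i, ‖σ (y i)‖ ≤ 1 := by
    intro i
    have e : σ (y i) = (σ (y i) - (s i : K)) + (s i : K) := by ring
    rw [e]
    exact (IsUltrametricDist.norm_add_le_max _ _).trans (max_le (hy i).le (hZ _))
  have h2 := norm_eval_sub_eval_lt (F := MvPolynomial.map σ H)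
    (fun μ => by rw [coeff_map]; exact hH μ) (z := fun i => σ (y i)) (w := fun i => (s i : K))
    hy1 (fun i => hZ _) hy
  have h3 := h1 y
  have h4 := h1 (fun i => (s i : ℂ))
  simp only [map_intCast] at h4
  rw [h3, h4, h0, map_zero, zero_sub, norm_neg] at h2
  linarith

/-- relations between `dim V + 1` coordinates -/
theorem exists_relation {P : Ideal (MvPolynomial (Fin n) ℂ)} [hP : P.IsPrime] {I : Finset (Fin n)}
    (hI : IsTranscendenceBasis ℂ (fun i : I => xbar P i)) (J : Finset (Fin n)) :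
    ∃ H : MvPolynomial J ℂ, H ≠ 0 ∧
      (J.card = I.card + 1 → rename ((↑) : J → Fin n) H ∈ P) := by
  classical
  by_cases hJ : J.card = I.card + 1
  · have hdep : ¬ AlgebraicIndependent ℂ (fun i : J => xbar P i) := by
      intro hind
      have h1 := card_le_dim hind
      rw [krull_eq_card hI] at h1
      have h2 : J.card ≤ I.card := by
        simp only [Nat.card_eq_fintype_card, Fintype.card_coe] at h1
        exact_mod_cast h1
      omega
    rw [algebraicIndependent_iff] at hdep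
    push Not at hdep
    obtain ⟨H, hH, hH0⟩ := hdep
    refine ⟨H, hH0, fun _ => ?_⟩
    rw [← Ideal.Quotient.eq_zero_iff_mem]
    have h1 : aeval (fun j : J => xbar P j) H =
        Ideal.Quotient.mk P (rename (fun j : J => (j : Fin n)) H) := by
      have h2 : (aeval (fun j : J => xbar P j) : MvPolynomial J ℂ →ₐ[ℂ] _) =
          (Ideal.Quotient.mkₐ ℂ P).comp (rename (fun j : J => (j : Fin n))) := by
        ext b
        simp
      rw [h2]
      rfl
    rw [← h1]
    exact hH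
  · exact ⟨1, one_ne_zero, fun h => absurd h hJ⟩

/-- generic integral points -/
theorem exists_integral_point (H : (J : Finset (Fin n)) → MvPolynomial J ℂ) (hH0 : ∀ J, H J ≠ 0)
    (v : Fin n → ℂ) : ∃ s : Fin n → ℤ, (∀ J : Finset (Fin n),
      eval (fun i : J => (s i : ℂ)) (H J) ≠ 0) ∧ ∀ i, (s i : ℂ) - v i ≠ 0 := by
  classical
  have hΨ : (∏ J : Finset (Fin n), rename ((↑) : J → Fin n) (H J)) *
      ∏ i : Fin n, (X i - C (v i)) ≠ (0 : MvPolynomial (Fin n) ℂ) := by
    refine mul_ne_zero (Finset.prod_ne_zero_iff.mpr fun J _ => ?_)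
      (Finset.prod_ne_zero_iff.mpr fun i _ => ?_)
    · intro h
      exact hH0 J (rename_injective _ Subtype.val_injective (by rw [h, map_zero]))
    · intro h
      have h1 := congrArg (eval (fun _ => v i + 1)) h
      simp at h1
  obtain ⟨s, hs⟩ : ∃ s : Fin n → ℤ, eval (fun i => (s i : ℂ))
      ((∏ J : Finset (Fin n), rename ((↑) : J → Fin n) (H J)) *
        ∏ i : Fin n, (X i - C (v i))) ≠ 0 := by
    by_contra hcon
    push Not at hcon
    apply hΨ
    apply MvPolynomial.funext_set (fun _ : Fin n => Set.range (fun m : ℤ => (m : ℂ)))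
      (fun _ => Set.infinite_range_of_injective Int.cast_injective)
    intro a ha
    choose s hs using fun i => ha i (Set.mem_univ i)
    have : a = fun i => (s i : ℂ) := funext fun i => (hs i).symm
    rw [this, hcon s, map_zero]
  rw [map_mul, map_prod, map_prod] at hs
  refine ⟨s, fun J => ?_, fun i => ?_⟩
  · have h1 := Finset.prod_ne_zero_iff.mp (left_ne_zero_of_mul hs) J (Finset.mem_univ J)
    rw [eval_rename] at h1
    exact h1
  · have h1 := Finset.prod_ne_zero_iff.mp (right_ne_zero_of_mul hs) i (Finset.mem_univ i)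
    simpa using h1

/-- the prime and the embedding -/
theorem exists_good_sigma (H : (J : Finset (Fin n)) → MvPolynomial J ℂ) (v : Fin n → ℂ)
    (s : Fin n → ℤ) (hs1 : ∀ J : Finset (Fin n), eval (fun i : J => (s i : ℂ)) (H J) ≠ 0)
    (hs2 : ∀ i, (s i : ℂ) - v i ≠ 0) (P₀ : ℕ) :
    ∃ (p : ℕ) (_ : Fact p.Prime) (σ : ℂ →+* PadicComplex p), P₀ ≤ p ∧ 3 ≤ p ∧ n ≤ p ∧
      (∀ (J : Finset (Fin n)) μ, ‖σ ((H J).coeff μ)‖ ≤ 1) ∧
      (∀ J : Finset (Fin n), 1 ≤ ‖σ (eval (fun i : J => (s i : ℂ)) (H J))‖) ∧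
      ∀ i, 1 ≤ ‖(s i : PadicComplex p) - σ (v i)‖ := by
  classical
  let T₁ : Finset ℂ := Finset.univ.biUnion fun J : Finset (Fin n) =>
      (H J).support.image fun μ => (H J).coeff μ
  let T₂ : Finset ℂ := Finset.univ.image fun J : Finset (Fin n) =>
    (eval (fun i : J => (s i : ℂ)) (H J))⁻¹
  let T₃ : Finset ℂ := Finset.univ.image fun i => ((s i : ℂ) - v i)⁻¹
  obtain ⟨p, hp, σ, hpmax, hσ⟩ := exists_sigma (T₁ ∪ (T₂ ∪ T₃)) (max P₀ (max 3 n))
  have key : ∀ z : ℂ, z ≠ 0 → ‖σ z⁻¹‖ ≤ 1 → 1 ≤ ‖σ z‖ := by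
    intro z hz h1
    rw [map_inv₀, norm_inv] at h1
    have h2 : 0 < ‖σ z‖ := norm_pos_iff.mpr ((map_ne_zero σ).mpr hz)
    by_contra hcon
    rw [not_le] at hcon
    have := (one_lt_inv₀ h2).mpr hcon
    linarith
  refine ⟨p, hp, σ, (le_max_left _ _).trans hpmax,
    (le_max_left _ _).trans ((le_max_right _ _).trans hpmax),
    (le_max_right _ _).trans ((le_max_right _ _).trans hpmax),
    fun J μ => ?_, fun J => ?_, fun i => ?_⟩
  · by_cases hμ : μ ∈ (H J).support
    · exact hσ _ (Finset.mem_union_left _ (Finset.mem_biUnion.mpr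
        ⟨J, Finset.mem_univ _, Finset.mem_image_of_mem _ hμ⟩))
    · rw [notMem_support_iff.mp hμ, map_zero, norm_zero]
      exact zero_le_one
  · exact key _ (hs1 J) (hσ _ (Finset.mem_union_right _ (Finset.mem_union_left _
      (Finset.mem_image_of_mem _ (Finset.mem_univ J)))))
  · have h1 := key _ (hs2 i) (hσ _ (Finset.mem_union_right _ (Finset.mem_union_right _
      (Finset.mem_image_of_mem _ (Finset.mem_univ i)))))
    rwa [map_sub, map_intCast] at h1

/-- **Main theorem.** -/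
theorem exists_translate_class {V : Set (Fin n → ℂ)} (hV : IsIrredClosed V) (P₀ : ℕ) :
    ∃ p : ℕ, P₀ ≤ p ∧ p.Prime ∧ ∃ ρ : Fin n → Matrix (Fin 2) (Fin 2) ℤ,
      ∀ g : Fin n → Matrix (Fin 2) (Fin 2) ℤ, (∀ i j k, g i j k ≡ ρ i j k [ZMOD (p : ℤ) ^ 5]) →
        (∀ i, (g i).det ≠ 0) ∧ IsIrredClosed (translate g V) ∧
          dim (translate g V) = dim V ∧ NoAtypical (translate g V) := by
  classical
  obtain ⟨hP, hPV⟩ := id hV
  set P : Ideal (MvPolynomial (Fin n) ℂ) := vanishingIdeal ℂ V with hPdef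
  obtain ⟨I, hI⟩ := exists_basis P
  have hdimV : dim V = I.card := by
    rw [dim, ← hPdef, krull_eq_card hI]
    simp
  -- a point
  obtain ⟨v, hv⟩ : V.Nonempty := by
    by_contra hcon
    rw [Set.not_nonempty_iff_eq_empty] at hcon
    apply hP.ne_top
    rw [hPdef, hcon, vanishingIdeal_empty]
  choose H hH0 hH using exists_relation hI
  obtain ⟨s, hs1, hs2⟩ := exists_integral_point H hH0 v
  obtain ⟨p, hp, σ, hP₀, hp3, hpn, hT1, hT2, hT3⟩ := exists_good_sigma H v s hs1 hs2 P₀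
  -- the class
  let ρ : Fin n → Matrix (Fin 2) (Fin 2) ℤ := fun i =>
    !![1 + p * (i : ℕ), p ^ 2 - (1 + p * (i : ℕ)) * s i; p ^ 2, -(p ^ 2 * s i)]
  refine ⟨p, hP₀, hp.out, ρ, fun g hg => ?_⟩
  have hgi : ∀ i, g i 1 0 ≠ 0 ∧ g i 0 0 * g i 1 1 - g i 0 1 * g i 1 0 ≠ 0 ∧
      ‖((p : PadicComplex p) ^ 2 * ((g i 0 0 : PadicComplex p) / (g i 1 0 : PadicComplex p)) -
        (1 + p * (((i : ℕ) : ℤ) : PadicComplex p)))‖ ≤ (p : ℝ)⁻¹ ^ 2 ∧
      ‖-(g i 1 1 : PadicComplex p) / (g i 1 0 : PadicComplex p) - s i‖ < 1 ∧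
      ‖((g i 0 0 : PadicComplex p) * g i 1 1 - g i 0 1 * g i 1 0) /
        (g i 1 0 : PadicComplex p) ^ 2‖ = 1 := by
    intro i
    exact entries ((i : ℕ) : ℤ) (s i) (hg i 0 0) (hg i 0 1) (hg i 1 0) (hg i 1 1)
  have hdet : ∀ i, g i 0 0 * g i 1 1 - g i 0 1 * g i 1 0 ≠ 0 := fun i => (hgi i).2.1
  have hne : (mobImage g V).Nonempty := by
    refine ⟨_, v, hv, fun i => ⟨?_, rfl⟩⟩
    intro h0
    obtain ⟨hc, -, -, h4, -⟩ := hgi i
    have h1 := congrArg σ h0
    rw [map_add, map_mul, map_intCast, map_intCast, map_zero] at h1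
    have hcK : (g i 1 0 : PadicComplex p) ≠ 0 := by exact_mod_cast hc
    have h2 : -(g i 1 1 : PadicComplex p) / (g i 1 0 : PadicComplex p) = σ (v i) := by
      rw [div_eq_iff hcK]
      linear_combination -h1
    rw [h2, norm_sub_rev] at h4
    have := hT3 i
    linarith
  obtain ⟨hirr, hdimeq⟩ := translate_irred hdet hV hne
  refine ⟨fun i => by rw [Matrix.det_fin_two]; exact hdet i, hirr, hdimeq, ?_⟩
  have hIn : I.card ≤ n := by simpa using Finset.card_le_univ I
  refine noAtypical_of_close hp3 hpn σ (c := n - I.card) (Nat.sub_le _ _) ?_ fun x hx => ?_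
  · rw [hdimeq, hdimV, Nat.sub_sub_self hIn]
  -- the far coordinates
  let β : Fin n → PadicComplex p := fun i => (g i 0 0 : PadicComplex p) / (g i 1 0 : PadicComplex p)
  let far : Finset (Fin n) := Finset.univ.filter fun i => 1 < ‖σ (x i) - β i‖
  have hfar : far.card ≤ I.card := by
    by_contra hcon
    rw [not_le] at hcon
    obtain ⟨J, hJfar, hJcard⟩ := Finset.exists_subset_card_eq hcon
    have hfarJ : ∀ i : J, 1 < ‖σ (x i) - β i‖ := fun i => (Finset.mem_filter.mp (hJfar i.2)).2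
    have hcK : ∀ i, (g i 1 0 : PadicComplex p) ≠ 0 := fun i => by exact_mod_cast (hgi i).1
    -- the denominators
    have hden : ∀ i : J, -(g i 1 0 : PadicComplex p) * σ (x i) + (g i 0 0 : PadicComplex p) =
        -(g i 1 0 : PadicComplex p) * (σ (x i) - β i) := by
      intro i
      have := hcK i
      simp only [β]
      field_simp
      ring
    have hdenK : ∀ i : J, -(g i 1 0 : PadicComplex p) * σ (x i) + (g i 0 0 : PadicComplex p) ≠ 0 := by
      intro i
      rw [hden i]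
      refine mul_ne_zero (neg_ne_zero.mpr (hcK i)) ?_
      intro h
      have := hfarJ i
      rw [h, norm_zero] at this
      linarith
    have hdenC : ∀ i : J, -(g i 1 0 : ℂ) * x i + (g i 0 0 : ℂ) ≠ 0 := by
      intro i h
      apply hdenK i
      have h1 := congrArg σ h
      simpa using h1
    have h0 := relation_translate hdet (hH J hJcard) hx hdenC
    refine eval_ne_zero_of_close norm_intCast_le σ (hT1 J) (hT2 J) (fun i => ?_) h0
    -- the inverse image is close to `s`
    obtain ⟨-, -, -, h4, h5⟩ := hgi i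
    have hcKi := hcK i
    have hfi : σ (x i) - β i ≠ 0 := by
      intro h
      have := hfarJ i
      rw [h, norm_zero] at this
      linarith
    have e1 : σ (((g i 1 1 : ℂ) * x i + -(g i 0 1 : ℂ)) / (-(g i 1 0 : ℂ) * x i + (g i 0 0 : ℂ))) =
        ((g i 1 1 : PadicComplex p) * σ (x i) + -(g i 0 1 : PadicComplex p)) /
          (-(g i 1 0 : PadicComplex p) * σ (x i) + (g i 0 0 : PadicComplex p)) := by
      simp
    have e2 : ((g i 1 1 : PadicComplex p) * σ (x i) + -(g i 0 1 : PadicComplex p)) /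
          (-(g i 1 0 : PadicComplex p) * σ (x i) + (g i 0 0 : PadicComplex p)) - s i =
        (-(g i 1 1 : PadicComplex p) / (g i 1 0 : PadicComplex p) - s i) +
          -(((g i 0 0 : PadicComplex p) * g i 1 1 - g i 0 1 * g i 1 0) /
            (g i 1 0 : PadicComplex p) ^ 2) * (σ (x i) - β i)⁻¹ := by
      rw [hden i]
      have e3 : σ (x i) = (σ (x i) - β i) + (g i 0 0 : PadicComplex p) / (g i 1 0 : PadicComplex p) := by
        simp only [β]
        ring
      generalize σ (x i) - β i = w at hfi e3 ⊢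
      rw [e3]
      field_simp
      ring
    rw [e1, e2]
    refine (IsUltrametricDist.norm_add_le_max _ _).trans_lt (max_lt h4 ?_)
    rw [norm_mul, norm_neg, h5, one_mul, norm_inv]
    exact inv_lt_one_of_one_lt₀ (hfarJ i)
  refine ⟨farᶜ, ?_, fun i hi => ?_⟩
  · rw [Finset.card_compl, Fintype.card_fin]
    omega
  · have h1 : ‖σ (x i) - β i‖ ≤ 1 := by
      by_contra hcon
      rw [Finset.mem_compl] at hi
      exact hi (Finset.mem_filter.mpr ⟨Finset.mem_univ i, not_le.mp hcon⟩)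
    have h2 := (hgi i).2.2.1
    have e : (p : PadicComplex p) ^ 2 * σ (x i) - (1 + p * (((i : ℕ) : ℤ) : PadicComplex p)) =
        (p : PadicComplex p) ^ 2 * (σ (x i) - β i) +
          ((p : PadicComplex p) ^ 2 * β i - (1 + p * (((i : ℕ) : ℤ) : PadicComplex p))) := by ring
    rw [e]
    refine (IsUltrametricDist.norm_add_le_max _ _).trans (max_le ?_ h2)
    rw [norm_mul, norm_pow, norm_p_eq]
    exact mul_le_of_le_one_right (by positivity) h1

end Pool.Agent.Hhelper14.ZP
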