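import Pool.Agent.Hhelper14.ZP.Gen

/-!
# Moebius images of subvarieties
-/

namespace Pool.Agent.Hhelper14.ZP

open MvPolynomial

/-- clearing denominators -/
theorem exists_clearing {ι : Type*} [Fintype ι] (a b c d : ι → ℂ) (F : MvPolynomial ι ℂ) :
    ∃ (D : ℕ) (G : MvPolynomial ι ℂ), ∀ y : ι → ℂ, (∀ i, c i * y i + d i ≠ 0) →
      eval y G = (∏ i, (c i * y i + d i)) ^ D *
        eval (fun i => (a i * y i + b i) / (c i * y i + d i)) F := by
  classical
  induction F using MvPolynomial.induction_on with
  | C r => exact ⟨0, C r, fun y _ => by simp⟩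
  | add F₁ F₂ h₁ h₂ =>
    obtain ⟨D₁, G₁, h₁⟩ := h₁
    obtain ⟨D₂, G₂, h₂⟩ := h₂
    refine ⟨D₁ + D₂, G₁ * (∏ i, (C (c i) * X i + C (d i))) ^ D₂ +
      G₂ * (∏ i, (C (c i) * X i + C (d i))) ^ D₁, fun y hy => ?_⟩
    simp only [map_add, map_mul, map_pow, map_prod, eval_C, eval_X, h₁ y hy, h₂ y hy]
    ring
  | mul_X F j h =>
    obtain ⟨D, G, h⟩ := h
    refine ⟨D + 1, G * (∏ i ∈ Finset.univ.erase j, (C (c i) * X i + C (d i))) *
      (C (a j) * X j + C (b j)), fun y hy => ?_⟩
    simp only [map_add, map_mul, map_prod, eval_C, eval_X, h y hy]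
    have e := Finset.mul_prod_erase Finset.univ (fun i => c i * y i + d i) (Finset.mem_univ j)
    rw [pow_succ, ← e]
    have := hy j
    field_simp

variable {n : ℕ}

/-- algebraically independent coordinates bound the dimension -/
theorem card_le_dim {Q : Ideal (MvPolynomial (Fin n) ℂ)} [Q.IsPrime] {I : Finset (Fin n)}
    (hI : AlgebraicIndependent ℂ (fun i : I => xbar Q i)) :
    (I.card : WithBot ℕ∞) ≤ ringKrullDim (MvPolynomial (Fin n) ℂ ⧸ Q) := by
  obtain ⟨J, hJ⟩ := exists_basis Q
  rw [krull_eq_card hJ]
  have h1 := hI.cardinalMk_le_trdeg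
  rw [← hJ.cardinalMk_eq_trdeg] at h1
  simp only [Cardinal.mk_fintype, Fintype.card_coe, Nat.cast_le] at h1
  simpa using h1

/-- the set of the points `((a_i y_i + b_i) / (c_i y_i + d_i))_i`, for `y` in `V` -/
def mobC (a b c d : Fin n → ℂ) (V : Set (Fin n → ℂ)) : Set (Fin n → ℂ) :=
  {x | ∃ y ∈ V, ∀ i, c i * y i + d i ≠ 0 ∧ x i = (a i * y i + b i) / (c i * y i + d i)}

/-- the Moebius image of an irreducible closed set has the same dimension, at least -/
theorem dim_le_mobC {a b c d : Fin n → ℂ} (hdet : ∀ i, a i * d i - b i * c i ≠ 0)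
    {V : Set (Fin n → ℂ)} (hV : (vanishingIdeal ℂ V).IsPrime)
    (hne : (mobC a b c d V).Nonempty) :
    (vanishingIdeal ℂ (mobC a b c d V)).IsPrime ∧ dim V ≤ dim (mobC a b c d V) := by
  classical
  set P := vanishingIdeal ℂ V with hP
  set Q := vanishingIdeal ℂ (mobC a b c d V) with hQ
  let U : MvPolynomial (Fin n) ℂ := ∏ i, (C (c i) * X i + C (d i))
  have hUev : ∀ y, eval y U = ∏ i, (c i * y i + d i) := fun y => by
    simp [U, map_prod]
  have hU : U ∉ P := by
    obtain ⟨x, y, hy, hyx⟩ := hne
    intro hU
    have h1 := (mem_vanishingIdeal_iff.mp hU) y hy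
    have h2 : eval y U = 0 := by simpa using h1
    rw [hUev] at h2
    exact (Finset.prod_ne_zero_iff.mpr fun i _ => (hyx i).1) h2
  have hUne : ∀ y, eval y U ≠ 0 → ∀ i, c i * y i + d i ≠ 0 := by
    intro y hy i
    rw [hUev] at hy
    exact Finset.prod_ne_zero_iff.mp hy i (Finset.mem_univ i)
  -- membership
  have hmem : ∀ (F G : MvPolynomial (Fin n) ℂ) (D : ℕ), (∀ y : Fin n → ℂ,
      (∀ i, c i * y i + d i ≠ 0) → eval y G = (∏ i, (c i * y i + d i)) ^ D *
        eval (fun i => (a i * y i + b i) / (c i * y i + d i)) F) → (F ∈ Q ↔ G ∈ P) := by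
    intro F G D hG
    constructor
    · intro hF
      have h1 : U * G ∈ P := by
        rw [hP, mem_vanishingIdeal_iff]
        intro y hy
        have : aeval y (U * G) = eval y U * eval y G := by simp
        rw [this]
        by_cases hUy : eval y U = 0
        · rw [hUy, zero_mul]
        · rw [hG y (hUne y hUy)]
          have h2 := (mem_vanishingIdeal_iff.mp hF) _ ⟨y, hy, fun i => ⟨hUne y hUy i, rfl⟩⟩
          have h3 : eval (fun i => (a i * y i + b i) / (c i * y i + d i)) F = 0 := by simpa using h2
          rw [h3, mul_zero, mul_zero]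
      exact (hV.mem_or_mem h1).resolve_left hU
    · intro hG'
      rw [hQ, mem_vanishingIdeal_iff]
      rintro x ⟨y, hy, hyx⟩
      have h1 := (mem_vanishingIdeal_iff.mp hG') y hy
      have h2 : eval y G = 0 := by simpa using h1
      rw [hG y fun i => (hyx i).1] at h2
      have h3 : x = fun i => (a i * y i + b i) / (c i * y i + d i) := funext fun i => (hyx i).2
      have h4 := (mul_eq_zero.mp h2).resolve_left
        (pow_ne_zero _ (Finset.prod_ne_zero_iff.mpr fun i _ => (hyx i).1))
      rw [h3]
      simpa using h4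
  have hQprime : Q.IsPrime := by
    refine ⟨?_, fun {F₁ F₂} h12 => ?_⟩
    · intro htop
      obtain ⟨x, hx⟩ := hne
      have h1 : (1 : MvPolynomial (Fin n) ℂ) ∈ Q := by rw [htop]; exact Submodule.mem_top
      have h2 := (mem_vanishingIdeal_iff.mp h1) x hx
      simp at h2
    · obtain ⟨D₁, G₁, h₁⟩ := exists_clearing a b c d F₁
      obtain ⟨D₂, G₂, h₂⟩ := exists_clearing a b c d F₂
      have h3 : ∀ y : Fin n → ℂ, (∀ i, c i * y i + d i ≠ 0) → eval y (G₁ * G₂) =
          (∏ i, (c i * y i + d i)) ^ (D₁ + D₂) *
          eval (fun i => (a i * y i + b i) / (c i * y i + d i)) (F₁ * F₂) := by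
        intro y hy
        rw [map_mul, map_mul, h₁ y hy, h₂ y hy]
        ring
      have h4 := (hmem _ _ _ h3).mp h12
      rcases hV.mem_or_mem h4 with h | h
      · exact Or.inl ((hmem _ _ _ h₁).mpr h)
      · exact Or.inr ((hmem _ _ _ h₂).mpr h)
  refine ⟨hQprime, ?_⟩
  obtain ⟨I, hI⟩ := exists_basis P
  have hdimV : dim V = I.card := by
    rw [dim, ← hP, krull_eq_card hI]
    simp
  -- the coordinates in `I` stay independent
  have hind : AlgebraicIndependent ℂ (fun i : I => xbar Q i) := by
    rw [algebraicIndependent_iff]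
    intro F hF
    have hFQ : rename ((↑) : I → Fin n) F ∈ Q := by
      rw [← Ideal.Quotient.eq_zero_iff_mem]
      have h1 : aeval (fun j : I => xbar Q j) F =
          Ideal.Quotient.mk Q (rename (fun j : I => (j : Fin n)) F) := by
        have h2 : (aeval (fun j : I => xbar Q j) : MvPolynomial I ℂ →ₐ[ℂ] _) =
            (Ideal.Quotient.mkₐ ℂ Q).comp (rename (fun j : I => (j : Fin n))) := by
          ext b
          simp
        rw [h2]
        rfl
      rw [← h1]
      exact hF
    obtain ⟨D, G, hG⟩ := exists_clearing (fun i : I => a i) (fun i : I => b i)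
      (fun i : I => c i) (fun i : I => d i) F
    have hGP : U * rename ((↑) : I → Fin n) G ∈ P := by
      rw [hP, mem_vanishingIdeal_iff]
      intro y hy
      have : aeval y (U * rename ((↑) : I → Fin n) G) =
          eval y U * eval (fun i : I => y i) G := by
        have h0 : aeval y (U * rename ((↑) : I → Fin n) G) =
            eval y (U * rename ((↑) : I → Fin n) G) := rfl
        rw [h0, map_mul, eval_rename]
        rfl
      rw [this]
      by_cases hUy : eval y U = 0
      · rw [hUy, zero_mul]
      · rw [hG _ fun i => hUne y hUy i]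
        have h2 := (mem_vanishingIdeal_iff.mp hFQ) _ ⟨y, hy, fun i => ⟨hUne y hUy i, rfl⟩⟩
        have h3 : eval (fun i : I => (a i * y i + b i) / (c i * y i + d i)) F = 0 := by
          rw [aeval_rename] at h2
          exact h2
        rw [h3, mul_zero, mul_zero]
    have hGP' := (hV.mem_or_mem hGP).resolve_left hU
    have hG0 : G = 0 := by
      have h1 := hI.1
      rw [algebraicIndependent_iff] at h1
      apply h1
      have h2 : aeval (fun j : I => xbar P j) G =
          Ideal.Quotient.mk P (rename (fun j : I => (j : Fin n)) G) := by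
        have h2 : (aeval (fun j : I => xbar P j) : MvPolynomial I ℂ →ₐ[ℂ] _) =
            (Ideal.Quotient.mkₐ ℂ P).comp (rename (fun j : I => (j : Fin n))) := by
          ext b
          simp
        rw [h2]
        rfl
      rw [h2]
      exact Ideal.Quotient.eq_zero_iff_mem.mpr hGP'
    -- `F` vanishes on an open set
    have hprod : F * ∏ i : I, (C (a i) - C (c i) * X i) = 0 := by
      apply MvPolynomial.funext
      intro x
      rw [map_mul, map_zero, map_prod]
      by_cases hx : ∀ i : I, a i - c i * x i ≠ 0
      · let y : I → ℂ := fun i => (d i * x i - b i) / (a i - c i * x i)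
        have hy : ∀ i : I, c i * y i + d i = (a i * d i - b i * c i) / (a i - c i * x i) := by
          intro i
          have := hx i
          simp only [y]
          field_simp
          ring
        have hy' : ∀ i : I, c i * y i + d i ≠ 0 := by
          intro i
          rw [hy]
          exact div_ne_zero (hdet i) (hx i)
        have h1 := hG y hy'
        rw [hG0, map_zero] at h1
        have h2 := (mul_eq_zero.mp h1.symm).resolve_left
          (pow_ne_zero _ (Finset.prod_ne_zero_iff.mpr fun i _ => hy' i))
        have hy2 : ∀ i : I, a i * y i + b i = (a i * d i - b i * c i) * x i / (a i - c i * x i) := by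
          intro i
          have h4 := hx i
          rw [eq_div_iff h4]
          have h5 : y i * (a i - c i * x i) = d i * x i - b i := div_mul_cancel₀ _ h4
          linear_combination a i * h5
        have h3 : (fun i : I => (a i * y i + b i) / (c i * y i + d i)) = x := by
          funext i
          have h4 := hx i
          have h5 := hdet i
          rw [hy, hy2, div_div_div_cancel_right₀ h4, mul_div_cancel_left₀ _ h5]
        rw [h3] at h2
        rw [h2, zero_mul]
      · push Not at hx
        obtain ⟨i, hi⟩ := hx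
        rw [Finset.prod_eq_zero (Finset.mem_univ i), mul_zero]
        simpa using hi
    rcases mul_eq_zero.mp hprod with h | h
    · exact h
    · exfalso
      obtain ⟨i, -, hi⟩ := Finset.prod_eq_zero_iff.mp h
      have h1 := congrArg (eval (fun _ => 0)) hi
      have h2 := congrArg (eval (fun _ => 1)) hi
      simp at h1 h2
      apply hdet i
      have h3 : c i = 0 := by
        rw [h1] at h2
        simpa using h2
      rw [h1, h3]
      ring
  rw [hdimV, dim, ← hQ]
  exact card_le_dim hind

end Pool.Agent.Hhelper14.ZP
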