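import Pool.Agent.Hhelper14.ZP2.Hecke

/-!
# Numbers that are not Hecke related
-/

namespace Pool.Agent.Hhelper14.ZP

open UpperHalfPlane ModularForm MatrixGroups Function PowerSeries

/-- `x` and `y` are `j`-invariants of isogenous elliptic curves. -/
def HeckeRel (x y : ℂ) : Prop :=
  ∃ (τ : ℍ) (g : GL (Fin 2) ℚ), 0 < g.det.val ∧ x = jInv τ ∧ y = jInv (gact g τ)

theorem norm_sq_mul_eq_one {p : ℕ} [hp : Fact p.Prime] {y : PadicComplex p} {e : ℤ}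
    (hy : ‖p ^ 2 * y - (1 + p * e)‖ ≤ (p : ℝ)⁻¹ ^ 2) : ‖(p ^ 2 * y : PadicComplex p)‖ = 1 := by
  have hp0 : (0 : ℝ) < p := by exact_mod_cast hp.out.pos
  have hpi : (0 : ℝ) < (p : ℝ)⁻¹ := by positivity
  have hpi1 : (p : ℝ)⁻¹ < 1 := inv_lt_one_of_one_lt₀ (by exact_mod_cast hp.out.one_lt)
  have hpi2 : (p : ℝ)⁻¹ ^ 2 < (p : ℝ)⁻¹ := by nlinarith
  have h1 : (p ^ 2 * y : PadicComplex p) = (p ^ 2 * y - (1 + p * e)) + (1 + p * e) := by ring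
  have h2 : ‖(p ^ 2 * y - (1 + p * e) : PadicComplex p)‖ < ‖(1 + p * e : PadicComplex p)‖ := by
    rw [norm_one_add]
    linarith
  rw [h1, IsUltrametricDist.norm_add_eq_max_of_norm_ne_norm h2.ne, max_eq_right h2.le,
    norm_one_add]

theorem one_lt_norm {p : ℕ} [hp : Fact p.Prime] {y : PadicComplex p} {e : ℤ}
    (hy : ‖p ^ 2 * y - (1 + p * e)‖ ≤ (p : ℝ)⁻¹ ^ 2) : 1 < ‖y‖ := by
  have h := norm_sq_mul_eq_one hy
  rw [norm_mul, norm_pow, norm_p_eq] at h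
  have hp0 : (0 : ℝ) < p := by exact_mod_cast hp.out.pos
  have hpi : (0 : ℝ) < (p : ℝ)⁻¹ := by positivity
  have hpi1 : (p : ℝ)⁻¹ < 1 := inv_lt_one_of_one_lt₀ (by exact_mod_cast hp.out.one_lt)
  have hpi2 : (p : ℝ)⁻¹ ^ 2 < 1 := by nlinarith
  by_contra hcon
  rw [not_lt] at hcon
  have : (p : ℝ)⁻¹ ^ 2 * ‖y‖ ≤ (p : ℝ)⁻¹ ^ 2 * 1 := by gcongr
  linarith

theorem not_heckeRel {p : ℕ} [hp : Fact p.Prime] (hp3 : 3 ≤ p) (σ : ℂ →+* PadicComplex p)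
    {x x' : ℂ} {c c' : ℤ} (hx : ‖p ^ 2 * σ x - (1 + p * c)‖ ≤ (p : ℝ)⁻¹ ^ 2)
    (hx' : ‖p ^ 2 * σ x' - (1 + p * c')‖ ≤ (p : ℝ)⁻¹ ^ 2) (hcc : ¬ (p : ℤ) ∣ c - c') :
    ¬ HeckeRel x x' := by
  rintro ⟨τ, g, hg, rfl, rfl⟩
  obtain ⟨N, hN, A, hA⟩ := exists_integral hg
  obtain ⟨f, hfO, hf0, hf⟩ := exists_Jf
  have hx1 : 1 < ‖σ (jInv τ)‖ := one_lt_norm hx
  obtain ⟨q, u, a, d, ha, hd, ⟨hq, hqx⟩, ⟨hu, hux⟩, hrel⟩ :=
    tate_of_hecke hfO hf0 hf norm_intCast_le σ hN A τ hx1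
  have hfn : ∀ n, ‖coeff n (PowerSeries.map σ f)‖ ≤ 1 := fun n => by
    rw [PowerSeries.coeff_map]
    exact norm_OO_le norm_intCast_le σ (hfO n)
  have hf0' : coeff 0 (PowerSeries.map σ f) = 1 := by
    rw [PowerSeries.coeff_map, hf0, map_one]
  have hjA : jA hN A τ = jInv (gact g τ) := by rw [jA, hA]
  rw [hjA] at hux
  exact not_tate hp3 hfn hf0' hx hx' hcc hq hu hqx hux hd hrel

end Pool.Agent.Hhelper14.ZP
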