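import Pool.Agent.Hhelper14.ZP2.Ev

/-!
# Power series with integral coefficients over complete ultrametric fields
-/

namespace Pool.Agent.Hhelper14.ZP

open PowerSeries Finset

variable {K : Type*} [NormedField K] [IsUltrametricDist K]

theorem norm_le_of_hasSum {f : ℕ → K} {v : K} {r : ℝ} (hr : 0 ≤ r) (h : HasSum f v)
    (hf : ∀ n, ‖f n‖ ≤ r) : ‖v‖ ≤ r := by
  refine le_of_tendsto (h.norm) (Filter.Eventually.of_forall fun S => ?_)
  exact IsUltrametricDist.norm_sum_le_of_forall_le_of_nonneg hr fun i _ => hf i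

variable [CompleteSpace K]

/-- the value of a power series -/
noncomputable def val (f : PowerSeries K) (s : K) : K := ∑' n, coeff n f * s ^ n

variable {f : PowerSeries K} (hf : ∀ n, ‖coeff n f‖ ≤ 1)

include hf

theorem ev_val {s : K} (hs : ‖s‖ < 1) : Ev s f (val f s) := by
  have h1 : Summable (fun n => ‖coeff n f * s ^ n‖) := by
    refine Summable.of_nonneg_of_le (fun n => norm_nonneg _) (fun n => ?_)
      (summable_geometric_of_lt_one (norm_nonneg s) hs)
    rw [norm_mul, norm_pow]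
    exact mul_le_of_le_one_left (by positivity) (hf n)
  exact ⟨h1, h1.of_norm.hasSum⟩

theorem norm_pow_sub_pow_le {s t : K} (hs : ‖s‖ ≤ 1) (ht : ‖t‖ ≤ 1) (n : ℕ) :
    ‖s ^ n - t ^ n‖ ≤ ‖s - t‖ := by
  clear hf
  induction n with
  | zero => simp
  | succ n ih =>
    have : s ^ (n + 1) - t ^ (n + 1) = (s ^ n - t ^ n) * s + t ^ n * (s - t) := by ring
    rw [this]
    refine (IsUltrametricDist.norm_add_le_max _ _).trans (max_le ?_ ?_)
    · rw [norm_mul]
      exact (mul_le_of_le_one_right (norm_nonneg _) hs).trans ih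
    · rw [norm_mul, norm_pow]
      exact mul_le_of_le_one_left (norm_nonneg _) (pow_le_one₀ (norm_nonneg t) ht)

theorem norm_val_sub_le {s t : K} (hs : ‖s‖ < 1) (ht : ‖t‖ < 1) :
    ‖val f s - val f t‖ ≤ ‖s - t‖ := by
  have h1 := (ev_val hf hs).2.sub (ev_val hf ht).2
  refine norm_le_of_hasSum (norm_nonneg _) h1 fun n => ?_
  rw [← mul_sub, norm_mul]
  exact (mul_le_of_le_one_left (norm_nonneg _) (hf n)).trans
    (norm_pow_sub_pow_le (K := K) (f := f) hf hs.le ht.le n)

theorem val_zero : val f 0 = coeff 0 f := by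
  have h1 := (ev_val hf (s := 0) (by simp)).2
  have h2 := hasSum_single (f := fun n => coeff n f * (0 : K) ^ n) 0 (fun n hn => by simp [hn])
  have h3 := h1.unique h2
  simpa using h3

theorem norm_val (h0 : coeff 0 f = 1) {s : K} (hs : ‖s‖ < 1) : ‖val f s‖ = 1 := by
  have h1 := norm_val_sub_le hf hs (t := 0) (by simp)
  rw [val_zero hf, h0, sub_zero] at h1
  have h2 : val f s = (val f s - 1) + 1 := by ring
  have h3 : ‖val f s - 1‖ < ‖(1 : K)‖ := by
    rw [norm_one]
    exact h1.trans_lt hs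
  rw [h2, IsUltrametricDist.norm_add_eq_max_of_norm_ne_norm h3.ne, max_eq_right h3.le, norm_one]

/-- the equation `q x = f (q)` -/
theorem exists_q (h0 : coeff 0 f = 1) {x : K} (hx : 1 < ‖x‖) :
    ∃ q : K, ‖q‖ < 1 ∧ q * x = val f q := by
  have hx0 : x ≠ 0 := by
    rintro rfl
    simp at hx
    linarith
  let T : K → K := fun q => x⁻¹ * val f q
  have hr : ‖x‖⁻¹ < 1 := inv_lt_one_of_one_lt₀ hx
  let B : Set K := Metric.closedBall 0 ‖x‖⁻¹
  have hB : ∀ q ∈ B, ‖q‖ < 1 := fun q hq => by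
    have : ‖q‖ ≤ ‖x‖⁻¹ := by simpa [B] using hq
    exact this.trans_lt hr
  have hT : Set.MapsTo T B B := by
    intro q hq
    simp only [B, Metric.mem_closedBall, dist_zero_right, T, norm_mul, norm_inv,
      norm_val hf h0 (hB q hq), mul_one, le_refl]
  have hc : ContractingWith (⟨‖x‖⁻¹, by positivity⟩ : NNReal) (Set.MapsTo.restrict T B B hT) := by
    refine ⟨hr, LipschitzWith.of_dist_le_mul ?_⟩
    rintro ⟨q, hq⟩ ⟨t, ht⟩
    have h1 : ‖T q - T t‖ ≤ ‖x‖⁻¹ * ‖q - t‖ := by
      simp only [T]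
      rw [← mul_sub, norm_mul, norm_inv]
      exact mul_le_mul_of_nonneg_left (norm_val_sub_le hf (hB q hq) (hB t ht)) (by positivity)
    rw [Subtype.dist_eq, Subtype.dist_eq, dist_eq_norm, dist_eq_norm]
    exact h1
  obtain ⟨q, hq, hfix, -⟩ := ContractingWith.exists_fixedPoint' (Metric.isClosed_closedBall.isComplete)
    hT hc (x := 0) (by simp [B]) (edist_ne_top _ _)
  refine ⟨q, hB q hq, ?_⟩
  have h1 : x⁻¹ * val f q = q := hfix
  calc q * x = (x⁻¹ * val f q) * x := by rw [h1]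
    _ = val f q := by field_simp

end Pool.Agent.Hhelper14.ZP
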