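import Pool.Agent.Hhelper14.ZP.Criterion
import Pool.Agent.Hhelper14.ZP2.NotHecke

/-!
# An atypical intersection produces a point on a special subvariety of dimension less than the
codimension
-/

namespace Pool.Agent.Hhelper14.ZP

open UpperHalfPlane MvPolynomial

variable {n : ℕ}

theorem mem_OO_of_isIntegral {x : ℂ} (h : IsIntegral OO x) : x ∈ OO := by
  have h1 : Algebra.IsIntegral ℤ OO := by
    refine ⟨fun x => ?_⟩
    have hx : IsIntegral ℤ (x : ℂ) := x.2
    exact (isIntegral_algHom_iff (RingHom.toIntAlgHom OO.subtype)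
      (fun a b h => Subtype.ext h)).mp hx
  exact isIntegral_trans _ h

theorem mem_OO_of_gact {g : GL (Fin 2) ℚ} (hg : 0 < g.det.val) {τ : ℍ}
    (h : jInv τ ∈ OO) : jInv (gact g τ) ∈ OO := by
  obtain ⟨Φ, hΦ, hΦτ⟩ := modular_eq_rat hg
  let e : Polynomial OO →+* OO := Polynomial.evalRingHom ⟨jInv τ, h⟩
  have he : (algebraMap OO ℂ).comp e = Polynomial.eval₂RingHom OO.subtype (jInv τ) := by
    apply Polynomial.ringHom_ext
    · intro a
      simp only [e, RingHom.comp_apply, Polynomial.coe_eval₂RingHom, Polynomial.eval₂_C,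
        Polynomial.coe_evalRingHom, Polynomial.eval_C]
      rfl
    · simp only [e, RingHom.comp_apply, Polynomial.coe_eval₂RingHom, Polynomial.eval₂_X,
        Polynomial.coe_evalRingHom, Polynomial.eval_X]
      rfl
  apply mem_OO_of_isIntegral
  refine ⟨Φ.map e, hΦ.map e, ?_⟩
  rw [← Polynomial.eval_map, Polynomial.map_map, he]
  exact hΦτ τ

theorem mem_OO_iff_gact {g : GL (Fin 2) ℚ} (hg : 0 < g.det.val) {τ : ℍ} :
    jInv (gact g τ) ∈ OO ↔ jInv τ ∈ OO := by
  refine ⟨fun h => ?_, mem_OO_of_gact hg⟩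
  have := mem_OO_of_gact (det_inv_pos hg) h
  rwa [← gact_mul, inv_mul_cancel, gact_one] at this

theorem heckeRel_of_block {g g' : GL (Fin 2) ℚ} (hg : 0 < g.det.val) (hg' : 0 < g'.det.val)
    (τ : ℍ) : HeckeRel (jInv (gact g τ)) (jInv (gact g' τ)) := by
  refine ⟨gact g τ, g' * g⁻¹, ?_, rfl, ?_⟩
  · rw [map_mul, Units.val_mul]
    exact mul_pos hg' (det_inv_pos hg)
  · rw [← gact_mul, inv_mul_cancel_right]

/-- **From atypical intersections to points.** -/
theorem exists_point {c : ℕ} (hcn : c ≤ n) {W : Set (Fin n → ℂ)}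
    (hdim : ((n - c : ℕ) : WithBot ℕ∞) ≤ dim W) (hW : ¬ NoAtypical W) :
    ∃ x ∈ W, ∃ r < c, ∃ t : Fin n → Option (Fin r), (∀ i, t i = none → x i ∈ OO) ∧
      ∀ i i' b, t i = some b → t i' = some b → HeckeRel (x i) (x i') := by
  classical
  rw [NoAtypical] at hW
  push Not at hW
  obtain ⟨Z, ⟨r, block, g, s, hb, hg, hs, hZ⟩, C, ⟨⟨hP, hPC⟩, hCWZ, -⟩, hcon⟩ := hW
  have hZ' : Z = {x | ∃ τ : Fin r → ℍ, ∀ i, x i = (block i).elim (jInv (s i))
      (fun b => jInv (gact (g i) (τ b)))} := hZ
  set P : Ideal (MvPolynomial (Fin n) ℂ) := vanishingIdeal ℂ C with hPdef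
  obtain ⟨I, hI⟩ := exists_basis P
  have hdimC : dim C = I.card := by
    rw [dim, ← hPdef, krull_eq_card hI]
    simp
  have hdimZ := le_dim_special hb hZ'
  have hlt : r < I.card + c := by
    have h1 : ((r : WithBot ℕ∞)) + ((n - c : ℕ) : WithBot ℕ∞) < (I.card : WithBot ℕ∞) + n := by
      rw [← hdimC]
      refine lt_of_le_of_lt ?_ hcon
      gcongr
    have h2 : r + (n - c) < I.card + n := by exact_mod_cast h1
    omega
  have hZP : vanishingIdeal ℂ Z ≤ P := vanishingIdeal_anti_mono fun x hx => (hCWZ hx).2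
  -- the coordinates in `I` lie in distinct blocks
  have hblock : ∀ i : I, ∃ b, block i = some b := by
    intro i
    rw [← Option.ne_none_iff_exists']
    intro hnone
    have h1 : X (i : Fin n) - MvPolynomial.C (jInv (s i)) ∈ P := by
      apply hZP
      rw [mem_vanishingIdeal_iff]
      intro x hx
      rw [hZ'] at hx
      obtain ⟨τ, hτ⟩ := hx
      have h2 := hτ i
      rw [hnone] at h2
      simp [h2]
    have h2 : xbar P i = algebraMap ℂ _ (jInv (s i)) := by
      rw [← sub_eq_zero]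
      have h3 := Ideal.Quotient.eq_zero_iff_mem.mpr h1
      rw [map_sub] at h3
      exact h3
    have h3 := hI.1.transcendental i
    rw [h2] at h3
    exact h3 (isAlgebraic_algebraMap _)
  choose f hf using hblock
  have hfinj : Function.Injective f := by
    intro i i' hii'
    by_contra hne
    have hne' : (i : Fin n) ≠ i' := fun h => hne (Subtype.ext h)
    have hpos : 0 < (g i' * (g i)⁻¹).det.val := by
      rw [map_mul, Units.val_mul]
      exact mul_pos (hg _) (det_inv_pos (hg _))
    obtain ⟨Φ, hΦ, hΦτ⟩ := modular_eq_rat hpos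
    refine not_indep hZP hI.1 i.2 i'.2 hne' hΦ fun x hx => ?_
    rw [hZ'] at hx
    obtain ⟨τ, hτ⟩ := hx
    have h1 := hτ i
    have h2 := hτ i'
    rw [hf i] at h1
    rw [hf i', ← hii'] at h2
    simp only [Option.elim] at h1 h2
    have h3 := hΦτ (gact (g i) (τ (f i)))
    rw [← gact_mul, inv_mul_cancel_right] at h3
    rw [h1, h2]
    exact h3
  -- a generic CM point
  obtain ⟨h, hh0, hgen⟩ := exists_generic P hI
  obtain ⟨a, haCM, ha⟩ : ∃ a : I → ℂ, (∀ i, a i ∈ CMj) ∧ MvPolynomial.eval a h ≠ 0 := by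
    by_contra hcon'
    push Not at hcon'
    apply hh0
    apply MvPolynomial.funext_set (fun _ : I => CMj) (fun _ => CMj_infinite)
    intro a ha
    rw [map_zero]
    exact hcon' a fun i => ha i (Set.mem_univ i)
  obtain ⟨x, hxP, hxa⟩ := hgen a ha
  have hxC : x ∈ C := by rw [← hPC]; exact hxP
  obtain ⟨hxW, hxZ⟩ := hCWZ hxC
  rw [hZ'] at hxZ
  obtain ⟨τ, hτ⟩ := hxZ
  -- the remaining blocks
  let T : Finset (Fin r) := Finset.univ.image f
  have hT : T.card = I.card := by
    rw [Finset.card_image_of_injective _ hfinj, Finset.card_univ, Fintype.card_coe]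
  have hrem : (Tᶜ).card = r - I.card := by
    rw [Finset.card_compl, hT, Fintype.card_fin]
  let e : (Tᶜ : Finset (Fin r)) ≃ Fin (r - I.card) := Finset.equivFinOfCardEq hrem
  have hTle : I.card ≤ r := by
    rw [← hT]
    simpa using Finset.card_le_univ T
  have hnone : ∀ i, block i = none → x i ∈ OO := by
    intro i hi
    have h1 := hτ i
    rw [hi] at h1
    simp only [Option.elim] at h1
    rw [h1]
    exact jInv_mem_of_isCM (hs i hi)
  have hxτ : ∀ i b, block i = some b → x i = jInv (gact (g i) (τ b)) := by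
    intro i b hi
    have h1 := hτ i
    rw [hi] at h1
    simpa only [Option.elim] using h1
  have hTV : ∀ b ∈ T, jInv (τ b) ∈ OO := by
    intro b hb
    obtain ⟨i, -, rfl⟩ := Finset.mem_image.mp hb
    rw [← mem_OO_iff_gact (hg i), ← hxτ i (f i) (hf i), hxa i]
    exact mem_OO_of_CMj (haCM i)
  refine ⟨x, hxW, r - I.card, by omega,
    fun i => (block i).bind fun b => if hb : b ∈ (Tᶜ : Finset (Fin r)) then some (e ⟨b, hb⟩) else none,
    fun i hi => ?_, fun i i' l hl hl' => ?_⟩
  · rcases hbi : block i with _ | b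
    · exact hnone i hbi
    · dsimp only at hi
      rw [hbi, Option.bind_some] at hi
      split_ifs at hi with hb
      rw [hxτ i b hbi, mem_OO_iff_gact (hg i)]
      exact hTV b (by simpa using hb)
  · dsimp only at hl hl'
    obtain ⟨b, hbi, hb⟩ := Option.bind_eq_some_iff.mp hl
    obtain ⟨b', hbi', hb'⟩ := Option.bind_eq_some_iff.mp hl'
    split_ifs at hb with h1
    split_ifs at hb' with h1'
    have h2 : e ⟨b, h1⟩ = e ⟨b', h1'⟩ := by
      rw [Option.some.inj hb, Option.some.inj hb']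
    have h3 : b = b' := congrArg Subtype.val (e.injective h2)
    subst h3
    rw [hxτ i b hbi, hxτ i' b hbi']
    exact heckeRel_of_block (hg i) (hg i') (τ b)

end Pool.Agent.Hhelper14.ZP
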