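import Pool.Agent.Hhelper14.ZP.Defs

/-!
# Translates of subvarieties of `(ℙ¹)ⁿ` by elements of `PGL₂(ℚ)ⁿ`
-/

namespace Pool.Agent.Hhelper14.ZP

open MvPolynomial

/-- The set of the points `((a_i y_i + b_i) / (c_i y_i + d_i))_i` of `ℂⁿ`, where `y` is a point of
`V` with `c_i y_i + d_i ≠ 0` for all `i`, and `g_i` is the matrix with rows `(a_i, b_i)` and
`(c_i, d_i)`. -/
def mobImage {n : ℕ} (g : Fin n → Matrix (Fin 2) (Fin 2) ℤ) (V : Set (Fin n → ℂ)) :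
    Set (Fin n → ℂ) :=
  {x | ∃ y ∈ V, ∀ i, (g i 1 0 : ℂ) * y i + (g i 1 1 : ℂ) ≠ 0 ∧
    x i = ((g i 0 0 : ℂ) * y i + (g i 0 1 : ℂ)) / ((g i 1 0 : ℂ) * y i + (g i 1 1 : ℂ))}

/-- The translate of `V` by `g ∈ PGL₂(ℚ)ⁿ`, acting on `(ℙ¹)ⁿ`: the Zariski closure in `ℂⁿ` of
`mobImage g V`. -/
def translate {n : ℕ} (g : Fin n → Matrix (Fin 2) (Fin 2) ℤ) (V : Set (Fin n → ℂ)) :
    Set (Fin n → ℂ) :=
  zeroLocus ℂ (vanishingIdeal ℂ (mobImage g V))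

end Pool.Agent.Hhelper14.ZP
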