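import Pool.Agent.Hhelper14.ZP2.Core
import Pool.Agent.Hhelper14.ZP2.Mob
import Pool.Agent.Hhelper14.ZP2.Lip
import Pool.Agent.Hhelper14.ZP2.Entries
import Pool.Agent.Hhelper14.ZP2.TransDefs
import Pool.Agent.Hhelper14.ZP.Class

/-!
# Translates without atypical intersections
-/

namespace Pool.Agent.Hhelper14.ZP

open MvPolynomial

variable {n : ℕ}

theorem vanishing_closure (S : Set (Fin n → ℂ)) :
    vanishingIdeal ℂ (zeroLocus ℂ (vanishingIdeal ℂ S : Ideal (MvPolynomial (Fin n) ℂ))) =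
      (vanishingIdeal ℂ S : Ideal (MvPolynomial (Fin n) ℂ)) := by
  apply le_antisymm
  · exact vanishingIdeal_anti_mono (le_zeroLocus_iff_le_vanishingIdeal.mpr le_rfl)
  · exact le_zeroLocus_iff_le_vanishingIdeal.mp le_rfl

theorem mobImage_eq (g : Fin n → Matrix (Fin 2) (Fin 2) ℤ) (V : Set (Fin n → ℂ)) :
    mobImage g V = mobC (fun i => (g i 0 0 : ℂ)) (fun i => (g i 0 1 : ℂ))
      (fun i => (g i 1 0 : ℂ)) (fun i => (g i 1 1 : ℂ)) V := rfl

/-- the inverse Moebius map -/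
theorem mob_inv {a b c d w z : ℂ} (hdet : a * d - b * c ≠ 0) (h5 : c * w + d ≠ 0)
    (h6 : z = (a * w + b) / (c * w + d)) :
    -c * z + a ≠ 0 ∧ (d * z + -b) / (-c * z + a) = w := by
  have h7 : z * (c * w + d) = a * w + b := by rw [h6, div_mul_cancel₀ _ h5]
  have h8 : (-c * z + a) * (c * w + d) = a * d - b * c := by linear_combination -c * h7
  have h9 : -c * z + a ≠ 0 := by
    intro h
    rw [h, zero_mul] at h8
    exact hdet h8.symm
  refine ⟨h9, ?_⟩
  rw [div_eq_iff h9]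
  apply mul_right_cancel₀ h5
  linear_combination d * h7 + w * c * h7

/-- the translate of an irreducible closed set is irreducible of the same dimension -/
theorem translate_irred {g : Fin n → Matrix (Fin 2) (Fin 2) ℤ}
    (hdet : ∀ i, g i 0 0 * g i 1 1 - g i 0 1 * g i 1 0 ≠ 0) {V : Set (Fin n → ℂ)}
    (hV : IsIrredClosed V) (hne : (mobImage g V).Nonempty) :
    IsIrredClosed (translate g V) ∧ dim (translate g V) = dim V := by
  have hdetC : ∀ i, (g i 0 0 : ℂ) * g i 1 1 - g i 0 1 * g i 1 0 ≠ 0 := fun i => by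
    exact_mod_cast hdet i
  have h1 := dim_le_mobC hdetC hV.1 (by rwa [← mobImage_eq])
  rw [← mobImage_eq] at h1
  have hvan : vanishingIdeal ℂ (translate g V) = vanishingIdeal ℂ (mobImage g V) :=
    vanishing_closure _
  have hirr : IsIrredClosed (translate g V) :=
    ⟨by rw [hvan]; exact h1.1, by rw [hvan]; rfl⟩
  have hdimeq : dim (translate g V) = dim (mobImage g V) := by rw [dim, dim, hvan]
  refine ⟨hirr, le_antisymm ?_ (by rw [hdimeq]; exact h1.2)⟩
  -- the inverse translation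
  set W := translate g V with hW
  set S' := mobC (fun i => (g i 1 1 : ℂ)) (fun i => -(g i 0 1 : ℂ))
    (fun i => -(g i 1 0 : ℂ)) (fun i => (g i 0 0 : ℂ)) W with hS'
  have hsub : mobImage g V ⊆ W := le_zeroLocus_iff_le_vanishingIdeal.mpr le_rfl
  have hdet' : ∀ i, (g i 1 1 : ℂ) * g i 0 0 - -(g i 0 1 : ℂ) * -(g i 1 0 : ℂ) ≠ 0 := fun i => by
    have := hdetC i
    intro h
    apply this
    linear_combination h
  have hne' : S'.Nonempty := by
    obtain ⟨x, hx⟩ := hne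
    have hx' := hx
    obtain ⟨y, hy, hyx⟩ := hx'
    refine ⟨_, x, hsub hx, fun i => ⟨?_, rfl⟩⟩
    obtain ⟨h5, h6⟩ := hyx i
    exact (mob_inv (hdetC i) h5 h6).1
  have h2 := dim_le_mobC hdet' (V := W) hirr.1 hne'
  refine h2.2.trans (dim_mono ?_)
  -- the inverse image lies in `V`
  rintro y ⟨x, hx, hxy⟩
  rw [← hV.2]
  intro F hF
  obtain ⟨D, G, hG⟩ := exists_clearing (fun i => (g i 1 1 : ℂ)) (fun i => -(g i 0 1 : ℂ))
    (fun i => -(g i 1 0 : ℂ)) (fun i => (g i 0 0 : ℂ)) F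
  have hGmem : G ∈ vanishingIdeal ℂ (mobImage g V) := by
    rw [mem_vanishingIdeal_iff]
    rintro z ⟨w, hw, hwz⟩
    have h34 : ∀ i, -(g i 1 0 : ℂ) * z i + (g i 0 0 : ℂ) ≠ 0 ∧
        ((g i 1 1 : ℂ) * z i + -(g i 0 1 : ℂ)) / (-(g i 1 0 : ℂ) * z i + (g i 0 0 : ℂ)) = w i := by
      intro i
      obtain ⟨h5, h6⟩ := hwz i
      exact mob_inv (hdetC i) h5 h6
    have h3 := fun i => (h34 i).1
    have h4 := funext fun i => (h34 i).2
    have h5 := hG z h3
    rw [h4] at h5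
    have h6 : eval w F = 0 := by simpa using (mem_vanishingIdeal_iff.mp hF) w hw
    rw [h6, mul_zero] at h5
    simpa using h5
  have hGx : eval x G = 0 := by
    have h3 := hx G hGmem
    simpa using h3
  rw [hG x fun i => (hxy i).1] at hGx
  have h4 := (mul_eq_zero.mp hGx).resolve_left
    (pow_ne_zero _ (Finset.prod_ne_zero_iff.mpr fun i _ => (hxy i).1))
  have h5 : y = fun i => ((g i 1 1 : ℂ) * x i + -(g i 0 1 : ℂ)) /
        (-(g i 1 0 : ℂ) * x i + (g i 0 0 : ℂ)) := funext fun i => (hxy i).2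
  rw [h5]
  simpa using h4

/-- relations in few coordinates pass to the translate -/
theorem relation_translate {g : Fin n → Matrix (Fin 2) (Fin 2) ℤ}
    (hdet : ∀ i, g i 0 0 * g i 1 1 - g i 0 1 * g i 1 0 ≠ 0) {V : Set (Fin n → ℂ)}
    {J : Finset (Fin n)} {H : MvPolynomial J ℂ}
    (hH : rename ((↑) : J → Fin n) H ∈ vanishingIdeal ℂ V) {x : Fin n → ℂ}
    (hx : x ∈ translate g V) (hne : ∀ i : J, -(g i 1 0 : ℂ) * x i + (g i 0 0 : ℂ) ≠ 0) :
    eval (fun i : J => ((g i 1 1 : ℂ) * x i + -(g i 0 1 : ℂ)) /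
      (-(g i 1 0 : ℂ) * x i + (g i 0 0 : ℂ))) H = 0 := by
  have hdetC : ∀ i, (g i 0 0 : ℂ) * g i 1 1 - g i 0 1 * g i 1 0 ≠ 0 := fun i => by
    exact_mod_cast hdet i
  obtain ⟨D, G, hG⟩ := exists_clearing (fun i : J => (g i 1 1 : ℂ)) (fun i : J => -(g i 0 1 : ℂ))
    (fun i : J => -(g i 1 0 : ℂ)) (fun i : J => (g i 0 0 : ℂ)) H
  have hGmem : rename ((↑) : J → Fin n) G ∈ vanishingIdeal ℂ (mobImage g V) := by
    rw [mem_vanishingIdeal_iff]
    rintro z ⟨w, hw, hwz⟩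
    have h34 : ∀ i : J, -(g i 1 0 : ℂ) * z i + (g i 0 0 : ℂ) ≠ 0 ∧
        ((g i 1 1 : ℂ) * z i + -(g i 0 1 : ℂ)) / (-(g i 1 0 : ℂ) * z i + (g i 0 0 : ℂ)) = w i := by
      intro i
      obtain ⟨h5, h6⟩ := hwz i
      exact mob_inv (hdetC i) h5 h6
    have h3 := fun i => (h34 i).1
    have h4 := funext fun i => (h34 i).2
    have h5 := hG (fun i : J => z i) h3
    rw [h4] at h5
    have h6 : eval (fun i : J => w i) H = 0 := by
      have h7 := (mem_vanishingIdeal_iff.mp hH) w hw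
      rw [aeval_rename] at h7
      exact h7
    rw [h6, mul_zero] at h5
    rw [aeval_rename]
    exact h5
  have hGx : eval (fun i : J => x i) G = 0 := by
    have h3 := hx _ hGmem
    rw [aeval_rename] at h3
    exact h3
  rw [hG _ hne] at hGx
  exact (mul_eq_zero.mp hGx).resolve_left
    (pow_ne_zero _ (Finset.prod_ne_zero_iff.mpr fun i _ => hne i))

end Pool.Agent.Hhelper14.ZP
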